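import Mathlib
import Pool.Agent.J4H95.PC.Base

set_option autoImplicit false

/-! Project PC, part A3: one stage of the transfer for the forms `n`, `3 ^ D n + r`. -/

namespace Pool.Agent.J4H55.PC

open Finset Filter Real
open Pool.Agent.J4H39 (T od ex pb ns rn stP stK lb GK GS Cm DV th0 Per Rel par id1 id1_pos id1_neg id1_nonneg
  id1_le_one)
open Pool.Agent.J4H26.PC
open Pool.Agent.J4H95.PC

theorem fg_bd {f g : ℤ → ℝ} (hf : Iv f) (hg : Iv g) (x y : ℤ) : |f x * g y| ≤ 1 := by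
  rw [abs_mul]
  exact mul_le_one₀ (hf.bd x) (abs_nonneg _) (hg.bd y)

/-- the observable of a state -/
noncomputable def Hs (f g : ℤ → ℝ) (s : ℤ × ℤ) (z : ℤ) : ℝ := (2 + f z * g (par s z)) / 4

theorem Hs_nonneg {f g : ℤ → ℝ} (hf : Iv f) (hg : Iv g) (s : ℤ × ℤ) (z : ℤ) : 0 ≤ Hs f g s z := by
  have := (abs_le.1 (fg_bd hf hg z (par s z))).1
  unfold Hs; linarith

theorem Hs_le_one {f g : ℤ → ℝ} (hf : Iv f) (hg : Iv g) (s : ℤ × ℤ) (z : ℤ) : Hs f g s z ≤ 1 := by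
  have := (abs_le.1 (fg_bd hf hg z (par s z))).2
  unfold Hs; linarith

theorem Hs_rel (f g : ℤ → ℝ) {s : ℤ × ℤ} {y y' : ℤ} (h : Rel s y y') : Hs f g s y = (2 + f y * g y') / 4 := by
  unfold Hs; rw [Pool.Agent.J4H39.par_eq h]

theorem Hs_iter {f g : ℤ → ℝ} (hf : Iv f) (hg : Iv g) {s : ℤ × ℤ} {y y' : ℤ} (h : Rel s y y') (j : ℕ) :
    Hs f g (rn stP j s y) (T^[j] y) = Hs f g s y := by
  rw [Hs_rel f g h, Hs_rel f g (Pool.Agent.J4H39.rel_rn h j).1, Iv_iter hf, Iv_iter hg]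

theorem cc_bd {f g : ℤ → ℝ} (hf : Iv f) (hg : Iv g) (κ : ℝ) {X : ℝ} (hX : 0 ≤ X) (D : ℕ) (r : ℤ) :
    |cc f g κ X D r| ≤ 2 := by
  unfold cc
  have hm : (0 : ℝ) < max X 1 := lt_of_lt_of_le one_pos (le_max_right _ _)
  rw [abs_div, abs_of_pos hm, div_le_iff₀ hm]
  have h1 : |∑ n ∈ Finset.Ico ⌈κ * X⌉ ⌈κ * X + X⌉, f n * g (3 ^ D * n + r)| ≤
      (((⌈κ * X + X⌉ - ⌈κ * X⌉).toNat : ℕ) : ℝ) := by
    refine (abs_sum_le_sum_abs _ _).trans ?_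
    refine (sum_le_card_nsmul _ _ 1 (fun n _ => fg_bd hf hg _ _)).trans ?_
    rw [Int.card_Ico, nsmul_eq_mul, mul_one]
  have h2 := toNat_le (κ := κ) hX
  have h3 := le_max_left X 1
  have h4 := le_max_right X 1
  linarith

theorem ex_abs' {j : ℕ} {F : ℤ → ℝ} {c : ℝ} (h : ∀ y, |F y| ≤ c) : |ex j F| ≤ c := by
  have h1 : ex j (fun _ => -c) ≤ ex j F := Pool.Agent.J4H39.ex_mono (fun y => (abs_le.mp (h y)).1)
  have h2 : ex j F ≤ ex j (fun _ => c) := Pool.Agent.J4H39.ex_mono (fun y => (abs_le.mp (h y)).2)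
  rw [Pool.Agent.J4H39.ex_const] at h1 h2
  exact abs_le.2 ⟨h1, h2⟩

theorem rel_pos (D : ℕ) (r z : ℤ) : Rel ((D : ℤ), r) z (3 ^ D * z + r) := Pool.Agent.J4H39.rel_nat D r z

/-- the sum of the observable over the interval -/
theorem Hs_sum {f g : ℤ → ℝ} {κ X : ℝ} (hX : 1 ≤ X) (D : ℕ) (r : ℤ) :
    |∑ n ∈ Finset.Ico ⌈κ * X⌉ ⌈κ * X + X⌉, Hs f g ((D : ℤ), r) n - X * ((2 + cc f g κ X D r) / 4)| ≤ 1 / 2 := by
  have e1 : ∑ n ∈ Finset.Ico ⌈κ * X⌉ ⌈κ * X + X⌉, Hs f g ((D : ℤ), r) n =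
      ((((⌈κ * X + X⌉ - ⌈κ * X⌉).toNat : ℕ) : ℝ) * 2 + ∑ n ∈ Finset.Ico ⌈κ * X⌉ ⌈κ * X + X⌉, f n * g (3 ^ D * n + r)) / 4 := by
    have : ∀ n ∈ Finset.Ico ⌈κ * X⌉ ⌈κ * X + X⌉, Hs f g ((D : ℤ), r) n = (2 + f n * g (3 ^ D * n + r)) / 4 :=
      fun n _ => Hs_rel f g (rel_pos D r n)
    rw [sum_congr rfl this, ← sum_div, sum_add_distrib, sum_const, Int.card_Ico, nsmul_eq_mul]
  have e2 : X * cc f g κ X D r = ∑ n ∈ Finset.Ico ⌈κ * X⌉ ⌈κ * X + X⌉, f n * g (3 ^ D * n + r) := by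
    unfold cc
    rw [max_eq_left hX]
    field_simp
  have h1 := Int.ceil_lt_add_one (κ * X + X)
  have h2 := Int.le_ceil (κ * X)
  have h1' := Int.le_ceil (κ * X + X)
  have h2' := Int.ceil_lt_add_one (κ * X)
  have h3 : ⌈κ * X⌉ ≤ ⌈κ * X + X⌉ := Int.ceil_mono (by linarith)
  have h4 : (((⌈κ * X + X⌉ - ⌈κ * X⌉).toNat : ℕ) : ℝ) = (⌈κ * X + X⌉ : ℝ) - ⌈κ * X⌉ := by
    have : (((⌈κ * X + X⌉ - ⌈κ * X⌉).toNat : ℕ) : ℤ) = ⌈κ * X + X⌉ - ⌈κ * X⌉ := Int.toNat_of_nonneg (by omega)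
    exact_mod_cast this
  rw [e1, ← e2, h4, abs_le]
  constructor <;> nlinarith

/-- the estimate for a class modulo `3 ^ m` -/
theorem cls_est {f g : ℤ → ℝ} (hf : Iv f) (hg : Iv g) {κ X' : ℝ} {o m k D : ℕ} {r c v₀ : ℤ} {Y : ℕ} {η : ℝ}
    (hm : m ≤ o) (hY : 1 ≤ Y) (hZ : 2 ^ k ≤ 3 ^ (o - m) * Y) (hη1 : ∀ u : ℤ, |u| ≤ 3 ^ m → ns k (0, u) ≤ η)
    (hη2 : ∀ u : ℤ, |u| ≤ 3 ^ m → ns k (0, 3 ^ D * u) ≤ η) (hc0 : 0 ≤ c) (hc1 : c < 3 ^ m) (hX' : 1 ≤ X')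
    (hE1 : |(3 : ℝ) ^ o * v₀ - κ * X'| ≤ 2 * 3 ^ o) (hE2 : |(3 : ℝ) ^ o * (v₀ + Y) - (κ * X' + X')| ≤ 2 * 3 ^ o) :
    |∑ i ∈ range (3 ^ (o - m) * Y), Hs f g ((D : ℤ), r) (c + 3 ^ m * (3 ^ (o - m) * v₀ + (i : ℕ))) -
      ((3 ^ (o - m) * Y : ℕ) : ℝ) * ((2 + cc f g κ X' D r) / 4)| ≤ (2 * η + 13 / Y) * ((3 ^ (o - m) * Y : ℕ) : ℝ) := by
  classical
  obtain ⟨Z, hZd⟩ : ∃ Z, Z = 3 ^ (o - m) * Y := ⟨_, rfl⟩
  obtain ⟨v₁, hv₁⟩ : ∃ v₁ : ℤ, v₁ = 3 ^ (o - m) * v₀ := ⟨_, rfl⟩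
  rw [← hZd] at hZ ⊢
  rw [← hv₁]
  have hM3 : (3 : ℤ) ^ m * v₁ = 3 ^ o * v₀ := by
    rw [hv₁, ← mul_assoc, ← pow_add]; congr 2; omega
  have hMZ : 3 ^ m * Z = 3 ^ o * Y := by
    rw [hZd, ← mul_assoc, ← pow_add]; congr 2; omega
  set S : ℤ → ℝ := fun e => ∑ i ∈ range Z, Hs f g ((D : ℤ), r) (e + 3 ^ m * (v₁ + (i : ℕ))) with hS
  have hZr : ((2 : ℝ) ^ k) ≤ Z := by exact_mod_cast hZ
  have hcmp : ∀ e ∈ range (3 ^ m), |S ((e : ℕ) : ℤ) - S c| ≤ 2 * η * Z := by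
    intro e he
    rw [mem_range] at he
    obtain ⟨u, hu⟩ : ∃ u : ℤ, u = e - c := ⟨_, rfl⟩
    have he' : ((e : ℕ) : ℤ) < 3 ^ m := by exact_mod_cast he
    have hub : |u| ≤ 3 ^ m := by
      rw [hu, abs_le]; constructor <;> omega
    rw [hS]
    simp only
    rw [← sum_sub_distrib]
    have h1 : ∀ i ∈ range Z, |Hs f g ((D : ℤ), r) (((e : ℕ) : ℤ) + 3 ^ m * (v₁ + (i : ℕ))) -
        Hs f g ((D : ℤ), r) (c + 3 ^ m * (v₁ + (i : ℕ)))| ≤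
        (1 / 2) * (id1 (rn stP k (0, u) (3 ^ m * ((i : ℕ) : ℤ) + (c + 3 ^ m * v₁)) ≠ (0, 0)) +
        id1 (rn stP k (0, 3 ^ D * u) (3 ^ (D + m) * ((i : ℕ) : ℤ) + (3 ^ D * (c + 3 ^ m * v₁) + r)) ≠ (0, 0))) := by
      intro i _
      rw [Hs_rel f g (rel_pos D r _), Hs_rel f g (rel_pos D r _)]
      have p := pair_diff hf hg (Pool.Agent.J4H39.rel_zero u (c + 3 ^ m * (v₁ + (i : ℕ))))
        (Pool.Agent.J4H39.rel_zero (3 ^ D * u) (3 ^ D * (c + 3 ^ m * (v₁ + (i : ℕ))) + r)) k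
      have e1 : c + 3 ^ m * (v₁ + (i : ℕ)) + u = ((e : ℕ) : ℤ) + 3 ^ m * (v₁ + (i : ℕ)) := by rw [hu]; ring
      have e2 : 3 ^ D * (c + 3 ^ m * (v₁ + (i : ℕ))) + r + 3 ^ D * u =
          3 ^ D * (((e : ℕ) : ℤ) + 3 ^ m * (v₁ + (i : ℕ))) + r := by rw [hu]; ring
      rw [e1, e2] at p
      have e3 : 3 ^ m * ((i : ℕ) : ℤ) + (c + 3 ^ m * v₁) = c + 3 ^ m * (v₁ + (i : ℕ)) := by ring
      have e4 : 3 ^ (D + m) * ((i : ℕ) : ℤ) + (3 ^ D * (c + 3 ^ m * v₁) + r) =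
          3 ^ D * (c + 3 ^ m * (v₁ + (i : ℕ))) + r := by rw [pow_add]; ring
      rw [e3, e4]
      have e5 : ∀ a b : ℝ, (2 + a) / 4 - (2 + b) / 4 = (1 / 4) * (a - b) := by intro a b; ring
      rw [e5, abs_mul, abs_of_pos (by norm_num : (0 : ℝ) < 1 / 4)]
      linarith
    refine (abs_sum_le_sum_abs _ _).trans ((sum_le_sum h1).trans ?_)
    rw [← mul_sum, sum_add_distrib]
    have h4 := Pool.Agent.J4H39.cnt_aff (Pool.Agent.J4H39.per_ns k (0, u)) (Pool.Agent.J4H39.pow3_odd m) (c + 3 ^ m * v₁) Z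
    have h5 := Pool.Agent.J4H39.cnt_aff (Pool.Agent.J4H39.per_ns k (0, 3 ^ D * u))
      (Pool.Agent.J4H39.pow3_odd (D + m)) (3 ^ D * (c + 3 ^ m * v₁) + r) Z
    have h6 : ((Z : ℝ) + 2 ^ k) ≤ 2 * Z := by linarith
    have n1 : pb k (fun y => rn stP k (0, u) y ≠ (0, 0)) ≤ η := hη1 u hub
    have n2 : pb k (fun y => rn stP k (0, 3 ^ D * u) y ≠ (0, 0)) ≤ η := hη2 u hub
    have p1 := Pool.Agent.J4H39.pb_nonneg k (fun y => rn stP k (0, u) y ≠ (0, 0))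
    have p2 := Pool.Agent.J4H39.pb_nonneg k (fun y => rn stP k (0, 3 ^ D * u) y ≠ (0, 0))
    have q1 := mul_le_mul h6 n1 p1 (by positivity)
    have q2 := mul_le_mul h6 n2 p2 (by positivity)
    linarith
  -- the whole interval
  have hsum : ∑ e ∈ range (3 ^ m), S ((e : ℕ) : ℤ) = ∑ n ∈ Finset.Ico ((3 : ℤ) ^ o * v₀) (3 ^ o * v₀ + ((3 ^ o * Y : ℕ) : ℤ)),
      Hs f g ((D : ℤ), r) n := by
    rw [range_blocks, ← hMZ, Pool.Agent.J4H39.sum_block, ← hM3, hS]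
    simp only
    rw [sum_comm]
    apply sum_congr rfl
    intro i _
    apply sum_congr rfl
    intro e _
    congr 1
    push_cast
    ring
  have hdiff := sum_Ico_diff (F := Hs f g ((D : ℤ), r)) (B := 1) zero_le_one (fun n => by
    rw [abs_of_nonneg (Hs_nonneg hf hg _ _)]; exact Hs_le_one hf hg _ _) ((3 : ℤ) ^ o * v₀)
    (3 ^ o * v₀ + ((3 ^ o * Y : ℕ) : ℤ)) ⌈κ * X'⌉ ⌈κ * X' + X'⌉
  have hHs := Hs_sum (f := f) (g := g) (κ := κ) hX' D r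
  obtain ⟨V, hV⟩ : ∃ V, V = (2 + cc f g κ X' D r) / 4 := ⟨_, rfl⟩
  rw [← hV] at hHs ⊢
  have hcb := abs_le.1 (cc_bd hf hg κ (by linarith : 0 ≤ X') D r)
  have hV0 : 0 ≤ V := by rw [hV]; linarith [hcb.1]
  have hV1 : V ≤ 1 := by rw [hV]; linarith [hcb.2]
  have h3o : (0 : ℝ) < 3 ^ o := by positivity
  have h3o1 : (1 : ℝ) ≤ 3 ^ o := one_le_pow₀ (by norm_num)
  have h3m : (0 : ℝ) < 3 ^ m := by positivity
  have c1 := Int.ceil_lt_add_one (κ * X' + X')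
  have c2 := Int.le_ceil (κ * X')
  have c3 := Int.le_ceil (κ * X' + X')
  have c4 := Int.ceil_lt_add_one (κ * X')
  rw [abs_le] at hE1 hE2
  have d1 : |(((3 : ℤ) ^ o * v₀ : ℤ) : ℝ) - ⌈κ * X'⌉| ≤ 2 * 3 ^ o + 1 := by
    push_cast
    rw [abs_le]; constructor <;> linarith [hE1.1, hE1.2]
  have d2 : |(((3 : ℤ) ^ o * v₀ + ((3 ^ o * Y : ℕ) : ℤ) : ℤ) : ℝ) - ⌈κ * X' + X'⌉| ≤ 2 * 3 ^ o + 1 := by
    push_cast
    have : (3 : ℝ) ^ o * v₀ + 3 ^ o * Y = 3 ^ o * (v₀ + Y) := by ring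
    rw [this, abs_le]; constructor <;> linarith [hE2.1, hE2.2]
  have d3 : |X' * V - 3 ^ o * Y * V| ≤ 4 * 3 ^ o := by
    have e1 : |X' - 3 ^ o * Y| ≤ 4 * 3 ^ o := by
      rw [abs_le]; constructor <;> nlinarith [hE1.1, hE1.2, hE2.1, hE2.2]
    rw [← sub_mul, abs_mul, abs_of_nonneg hV0]
    calc |X' - 3 ^ o * Y| * V ≤ |X' - 3 ^ o * Y| * 1 := mul_le_mul_of_nonneg_left hV1 (abs_nonneg _)
      _ ≤ _ := by linarith
  have hS' : |∑ e ∈ range (3 ^ m), S ((e : ℕ) : ℤ) - 3 ^ m * S c| ≤ 3 ^ m * (2 * η * Z) := by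
    have e7 : (3 : ℝ) ^ m * S c = ∑ e ∈ range (3 ^ m), S c := by
      rw [sum_const, card_range, nsmul_eq_mul]; push_cast; ring
    rw [e7, ← sum_sub_distrib]
    refine (abs_sum_le_sum_abs _ _).trans ((sum_le_sum hcmp).trans (le_of_eq ?_))
    rw [sum_const, card_range, nsmul_eq_mul]; push_cast; ring
  rw [hsum] at hS'
  have hMZr : (3 : ℝ) ^ m * Z = 3 ^ o * Y := by exact_mod_cast hMZ
  have hYr : (1 : ℝ) ≤ Y := by exact_mod_cast hY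
  have hfin : |3 ^ m * (S c - Z * V)| ≤ 3 ^ m * ((2 * η + 13 / Y) * Z) := by
    have e8 : (3 : ℝ) ^ m * (S c - Z * V) = 3 ^ m * S c - 3 ^ o * Y * V := by
      rw [mul_sub, ← mul_assoc, hMZr]
    have e9 : (3 : ℝ) ^ m * ((2 * η + 13 / Y) * Z) = 3 ^ m * (2 * η * Z) + 13 * 3 ^ o := by
      have : (3 : ℝ) ^ m * ((2 * η + 13 / Y) * Z) = 3 ^ m * (2 * η * Z) + 13 / Y * (3 ^ m * Z) := by ring
      rw [this, hMZr]
      field_simp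
    rw [e8, e9]
    rw [abs_le] at hS' hdiff hHs d3 ⊢
    constructor <;> linarith [hS'.1, hS'.2, hdiff.1, hdiff.2, hHs.1, hHs.2, d3.1, d3.2, d1, d2]
  rw [abs_mul, abs_of_pos h3m] at hfin
  exact le_of_mul_le_mul_left hfin h3m

/-- one stage of the transfer -/
theorem one_stage {f g : ℤ → ℝ} (hf : Iv f) (hg : Iv g) {κ X : ℝ} {D : ℕ} {r : ℤ} {j m k a b o₀ : ℕ} {η : ℝ}
    (hη0 : 0 ≤ η) (hη : ∀ u : ℤ, |u| ≤ 4 ^ (m + a) → ns k (0, u) ≤ η) (hmk : m + k ≤ o₀) (hX : 4 * (2 : ℝ) ^ j ≤ X) :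
    |cc f g κ X D r - ex j (fun y => cc f g κ (3 ^ od j y * X / 2 ^ j) ((rn stP j ((D : ℤ), r) y).1.toNat)
      (rn stP j ((D : ℤ), r) y).2)| ≤
      8 * (DV stK j (fun _ : Fin 1 => ((D : ℤ), r)) m + (2 * η + 26 * 2 ^ j / X) +
        pb j (fun w => ¬ (o₀ ≤ od j w ∧ GS a b (rn stP j ((D : ℤ), r) w) ∧ 0 ≤ (rn stP j ((D : ℤ), r) w).1))) +
      24 * 2 ^ j / X := by
  classical
  obtain ⟨s, hs⟩ : ∃ s : ℤ × ℤ, s = ((D : ℤ), r) := ⟨_, rfl⟩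
  obtain ⟨A, hA⟩ : ∃ A : ℤ, A = ⌈κ * X⌉ := ⟨_, rfl⟩
  obtain ⟨B, hB⟩ : ∃ B : ℤ, B = ⌈κ * X + X⌉ := ⟨_, rfl⟩
  obtain ⟨N, hN⟩ : ∃ N : ℕ, N = (B - A).toNat := ⟨_, rfl⟩
  obtain ⟨v₀, hv₀⟩ : ∃ v₀ : ℤ, v₀ = A / 2 ^ j := ⟨_, rfl⟩
  obtain ⟨Y, hYd⟩ : ∃ Y : ℕ, Y = N / 2 ^ j := ⟨_, rfl⟩
  have h2j : (0 : ℝ) < 2 ^ j := by positivity
  have h2j1 : (1 : ℝ) ≤ 2 ^ j := one_le_pow₀ (by norm_num)
  have h2jz : (0 : ℤ) < 2 ^ j := by positivity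
  have hX0 : 0 < X := by linarith
  have hX1 : 1 ≤ X := by linarith
  have c1 := Int.ceil_lt_add_one (κ * X + X)
  have c2 := Int.le_ceil (κ * X)
  have c3 := Int.le_ceil (κ * X + X)
  have c4 := Int.ceil_lt_add_one (κ * X)
  rw [← hA] at c2 c4
  rw [← hB] at c1 c3
  have hAB : A ≤ B := by rw [hA, hB]; exact Int.ceil_mono (by linarith)
  have hNr : (N : ℝ) = B - A := by
    have : ((N : ℕ) : ℤ) = B - A := by rw [hN]; exact Int.toNat_of_nonneg (by omega)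
    exact_mod_cast this
  have hYN : 2 ^ j * Y ≤ N := by rw [hYd]; exact Nat.mul_div_le N (2 ^ j)
  have hNY : N < 2 ^ j * Y + 2 ^ j := by
    have := Nat.lt_div_mul_add (a := N) (b := 2 ^ j) (by positivity)
    rw [mul_comm, ← hYd] at this
    exact this
  have hYNr : (2 : ℝ) ^ j * Y ≤ N := by exact_mod_cast hYN
  have hNYr : (N : ℝ) ≤ 2 ^ j * Y + 2 ^ j := by exact_mod_cast hNY.le
  have hv1 : 2 ^ j * v₀ ≤ A := by rw [hv₀]; exact Int.mul_ediv_self_le (by positivity)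
  have hv2 : A ≤ 2 ^ j * v₀ + 2 ^ j := by
    have := Int.lt_mul_ediv_self_add (x := A) h2jz
    rw [← hv₀] at this
    exact this.le
  have hv1r : (2 : ℝ) ^ j * v₀ ≤ A := by exact_mod_cast hv1
  have hv2r : (A : ℝ) ≤ 2 ^ j * v₀ + 2 ^ j := by exact_mod_cast hv2
  have hYX : X / (2 * 2 ^ j) ≤ Y := by
    rw [div_le_iff₀ (by positivity)]
    nlinarith
  have hY1 : 1 ≤ Y := by
    have : (0 : ℝ) < Y := lt_of_lt_of_le (by positivity) hYX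
    exact_mod_cast this
  have hY0 : (0 : ℝ) < Y := by exact_mod_cast hY1
  have h13 : 13 / (Y : ℝ) ≤ 26 * 2 ^ j / X := by
    rw [div_le_div_iff₀ hY0 hX0]
    rw [div_le_iff₀ (by positivity)] at hYX
    nlinarith
  have key := Pool.Agent.J4H39.stage stK (fun _ : Fin 1 => s) (j := j) (m := m) (fun μ z => Hs f g (μ.2 0) z)
    (fun μ z => Hs_nonneg hf hg _ _) (fun μ z => Hs_le_one hf hg _ _)
    (fun μ => (2 + cc f g κ (3 ^ μ.1 * X / 2 ^ j) ((μ.2 0).1.toNat) (μ.2 0).2) / 4)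
    (fun μ => by
      have := (abs_le.1 (cc_bd hf hg κ (X := 3 ^ μ.1 * X / 2 ^ j) (by positivity) ((μ.2 0).1.toNat) (μ.2 0).2)).1
      linarith)
    (fun μ => by
      have := (abs_le.1 (cc_bd hf hg κ (X := 3 ^ μ.1 * X / 2 ^ j) (by positivity) ((μ.2 0).1.toNat) (μ.2 0).2)).2
      linarith)
    v₀ Y (δ := 2 * η + 26 * 2 ^ j / X) (by positivity)
    (fun μ => o₀ ≤ μ.1 ∧ GS a b (μ.2 0) ∧ 0 ≤ (μ.2 0).1) (fun μ hμ => by omega) (by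
      intro w hw hgood c hc0 hc1 hd
      obtain ⟨hg1, hg2, hg3⟩ := hgood
      obtain ⟨o, ho⟩ : ∃ o, o = (lb stK j (fun _ : Fin 1 => s) ((w : ℕ) : ℤ)).1 := ⟨_, rfl⟩
      obtain ⟨s', hs'⟩ : ∃ s', s' = (lb stK j (fun _ : Fin 1 => s) ((w : ℕ) : ℤ)).2 0 := ⟨_, rfl⟩
      rw [← hs'] at hg2 hg3 ⊢
      rw [← ho] at hg1 ⊢
      obtain ⟨D', hD'⟩ := Int.eq_ofNat_of_zero_le hg3
      have hs'' : s' = ((D' : ℤ), s'.2) := Prod.ext hD' rfl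
      have hD'a : D' ≤ a := by
        have := hg2.1
        rw [hD', Nat.abs_cast] at this
        exact_mod_cast this
      have htn : s'.1.toNat = D' := by rw [hD']; rfl
      rw [htn]
      have hb1 : ∀ u : ℤ, |u| ≤ 3 ^ m → |u| ≤ 4 ^ (m + a) := fun u hu => hu.trans (by
        calc (3 : ℤ) ^ m ≤ 4 ^ m := pow_le_pow_left₀ (by norm_num) (by norm_num) m
          _ ≤ 4 ^ (m + a) := pow_le_pow_right₀ (by norm_num) (by omega))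
      have hb2 : ∀ u : ℤ, |u| ≤ 3 ^ m → |3 ^ D' * u| ≤ 4 ^ (m + a) := fun u hu => by
        rw [abs_mul, abs_of_pos (by positivity : (0 : ℤ) < 3 ^ D')]
        calc (3 : ℤ) ^ D' * |u| ≤ 4 ^ a * 4 ^ m := by
              apply mul_le_mul _ _ (abs_nonneg _) (by positivity)
              · calc (3 : ℤ) ^ D' ≤ 3 ^ a := pow_le_pow_right₀ (by norm_num) hD'a
                  _ ≤ 4 ^ a := pow_le_pow_left₀ (by norm_num) (by norm_num) a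
              · exact hu.trans (pow_le_pow_left₀ (by norm_num) (by norm_num) m)
          _ = 4 ^ (m + a) := by rw [← pow_add]; congr 1; omega
      have h3o : (0 : ℝ) < 3 ^ o := by positivity
      have h3o1 : (1 : ℝ) ≤ 3 ^ o := one_le_pow₀ (by norm_num)
      have est := cls_est hf hg (κ := κ) (X' := 3 ^ o * X / 2 ^ j) (o := o) (m := m) (k := k) (D := D') (r := s'.2)
        (c := c) (v₀ := v₀) (Y := Y) (η := η) (by omega) hY1 (by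
          calc 2 ^ k ≤ 3 ^ k := Nat.pow_le_pow_left (by norm_num) k
            _ ≤ 3 ^ (o - m) := Nat.pow_le_pow_right (by norm_num) (by omega)
            _ ≤ 3 ^ (o - m) * Y := Nat.le_mul_of_pos_right _ hY1)
        (fun u hu => hη u (hb1 u hu)) (fun u hu => hη _ (hb2 u hu)) hc0 hc1 (by
          rw [le_div_iff₀ h2j]; nlinarith) (by
          have e1 : (3 : ℝ) ^ o * v₀ - κ * (3 ^ o * X / 2 ^ j) = 3 ^ o / 2 ^ j * (2 ^ j * v₀ - κ * X) := by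
            field_simp
          have e2 : |(2 : ℝ) ^ j * v₀ - κ * X| ≤ 2 * 2 ^ j := by
            rw [abs_le]; constructor <;> linarith
          rw [e1, abs_mul, abs_of_pos (by positivity)]
          calc (3 : ℝ) ^ o / 2 ^ j * |(2 : ℝ) ^ j * v₀ - κ * X| ≤ 3 ^ o / 2 ^ j * (2 * 2 ^ j) := by gcongr
            _ = 2 * 3 ^ o := by field_simp) (by
          have e1 : (3 : ℝ) ^ o * (v₀ + Y) - (κ * (3 ^ o * X / 2 ^ j) + 3 ^ o * X / 2 ^ j) =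
              3 ^ o / 2 ^ j * (2 ^ j * v₀ + 2 ^ j * Y - (κ * X + X)) := by
            field_simp
          have e2 : |(2 : ℝ) ^ j * v₀ + 2 ^ j * Y - (κ * X + X)| ≤ 2 * 2 ^ j + 0 := by
            rw [abs_le]; constructor <;> linarith
          rw [e1, abs_mul, abs_of_pos (by positivity)]
          calc (3 : ℝ) ^ o / 2 ^ j * |(2 : ℝ) ^ j * v₀ + 2 ^ j * Y - (κ * X + X)| ≤ 3 ^ o / 2 ^ j * (2 * 2 ^ j + 0) := by
                gcongr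
            _ = 2 * 3 ^ o := by field_simp; ring)
      rw [hs'']
      refine est.trans ?_
      apply mul_le_mul_of_nonneg_right _ (by positivity)
      linarith)
  have hlb : ∀ w : ℤ, (lb stK j (fun _ : Fin 1 => s) w).2 0 = rn stP j s w := fun w => by
    unfold lb; exact Pool.Agent.J4H39.rn_stK_apply j _ w 0
  have hlb1 : ∀ w : ℤ, (lb stK j (fun _ : Fin 1 => s) w).1 = od j w := fun w => rfl
  simp only [hlb, hlb1] at key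
  rw [hs] at key
  set P := pb j (fun w => ¬ (o₀ ≤ od j w ∧ GS a b (rn stP j ((D : ℤ), r) w) ∧ 0 ≤ (rn stP j ((D : ℤ), r) w).1)) with hP
  set Δ := DV stK j (fun _ : Fin 1 => ((D : ℤ), r)) m with hΔ
  set EX := ex j (fun y => cc f g κ (3 ^ od j y * X / 2 ^ j) ((rn stP j ((D : ℤ), r) y).1.toNat)
      (rn stP j ((D : ℤ), r) y).2) with hEX
  set S2 := ∑ u ∈ range (2 ^ j * Y), Hs f g ((D : ℤ), r) (2 ^ j * v₀ + (u : ℕ)) with hS2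
  have e1 : ex j (fun w => ∑ v ∈ range Y, Hs f g (rn stP j ((D : ℤ), r) w) (T^[j] w % 3 ^ od j w + 3 ^ od j w * (v₀ + (v : ℕ)))) =
      S2 / 2 ^ j := by
    unfold ex
    congr 1
    rw [hS2, Pool.Agent.J4H39.sum_block, sum_comm]
    apply sum_congr rfl
    intro v _
    apply sum_congr rfl
    intro w hw
    rw [mem_range] at hw
    rw [Pool.Agent.J4H39.T_mod j (by positivity) (by exact_mod_cast hw), ← Pool.Agent.J4H39.T_add]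
    have h2 : rn stP j ((D : ℤ), r) ((w : ℕ) : ℤ) = rn stP j ((D : ℤ), r) (((w : ℕ) : ℤ) + 2 ^ j * (v₀ + (v : ℕ))) :=
      (Pool.Agent.J4H39.per_rn stP _ (le_refl j) ((w : ℕ) : ℤ) (v₀ + (v : ℕ))).symm
    rw [h2, Hs_iter hf hg (rel_pos D r (((w : ℕ) : ℤ) + 2 ^ j * (v₀ + (v : ℕ)))) j]
    congr 1
    push_cast
    ring
  have e2 : ex j (fun w => (2 + cc f g κ (3 ^ od j w * X / 2 ^ j) ((rn stP j ((D : ℤ), r) w).1.toNat)
      (rn stP j ((D : ℤ), r) w).2) / 4) = (2 + EX) / 4 := by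
    have : ∀ w, (2 + cc f g κ (3 ^ od j w * X / 2 ^ j) ((rn stP j ((D : ℤ), r) w).1.toNat)
      (rn stP j ((D : ℤ), r) w).2) / 4 = 1 / 2 + (1 / 4) * cc f g κ (3 ^ od j w * X / 2 ^ j)
      ((rn stP j ((D : ℤ), r) w).1.toNat) (rn stP j ((D : ℤ), r) w).2 := fun w => by ring
    rw [Pool.Agent.J4H39.ex_congr this, Pool.Agent.J4H39.ex_add, Pool.Agent.J4H39.ex_mul,
      Pool.Agent.J4H39.ex_const, ← hEX]
    ring
  rw [e1, e2] at key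
  have hEXb : |EX| ≤ 2 := by
    rw [hEX]
    exact ex_abs' (fun y => cc_bd hf hg κ (X := 3 ^ od j y * X / 2 ^ j) (by positivity) _ _)
  have hcmp := Pool.Agent.J4H39.block_cmp (f := Hs f g ((D : ℤ), r)) (fun _ => Hs_nonneg hf hg _ _)
    (fun _ => Hs_le_one hf hg _ _) j A N
  rw [← hYd, ← hv₀, ← hS2] at hcmp
  have hsum := Hs_sum (f := f) (g := g) (κ := κ) hX1 D r
  rw [← hA, ← hB, sum_Ico_range, ← hN] at hsum
  set E := Δ + (2 * η + 26 * 2 ^ j / X) + P with hE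
  have hP0 : 0 ≤ P := Pool.Agent.J4H39.pb_nonneg _ _
  have hΔ0 : 0 ≤ Δ := by
    rw [hΔ]; unfold DV
    exact sum_nonneg fun _ _ => sum_nonneg fun _ _ => abs_nonneg _
  have hE0 : 0 ≤ E := by
    have h26 : 0 ≤ 26 * 2 ^ j / X := by positivity
    rw [hE]; linarith
  obtain ⟨V, hV⟩ : ∃ V, V = (2 + EX) / 4 := ⟨_, rfl⟩
  rw [← hV] at key
  have hV0 : 0 ≤ V := by rw [hV]; linarith [(abs_le.1 hEXb).1]
  have hV1 : V ≤ 1 := by rw [hV]; linarith [(abs_le.1 hEXb).2]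
  have k1 : |S2 - 2 ^ j * Y * V| ≤ 2 * X * E := by
    have : S2 - 2 ^ j * Y * V = 2 ^ j * (S2 / 2 ^ j - Y * V) := by field_simp
    rw [this, abs_mul, abs_of_pos h2j]
    calc (2 : ℝ) ^ j * |S2 / 2 ^ j - Y * V| ≤ 2 ^ j * (Y * E) := mul_le_mul_of_nonneg_left key h2j.le
      _ = (2 ^ j * Y) * E := by ring
      _ ≤ (2 * X) * E := by
          apply mul_le_mul_of_nonneg_right _ hE0
          linarith
  have k2 : |(2 : ℝ) ^ j * Y * V - X * V| ≤ 2 ^ j + 1 := by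
    have : |(2 : ℝ) ^ j * Y - X| ≤ 2 ^ j + 1 := by
      rw [abs_le]; constructor <;> linarith
    rw [← sub_mul, abs_mul, abs_of_nonneg hV0]
    calc |(2 : ℝ) ^ j * Y - X| * V ≤ |(2 : ℝ) ^ j * Y - X| * 1 := mul_le_mul_of_nonneg_left hV1 (abs_nonneg _)
      _ ≤ _ := by linarith
  have k3 : |X * ((2 + cc f g κ X D r) / 4) - X * V| ≤ 6 * 2 ^ j + 2 * X * E := by
    rw [abs_le] at hsum hcmp k1 k2 ⊢
    constructor <;> linarith [hsum.1, hsum.2, hcmp.1, hcmp.2, k1.1, k1.2, k2.1, k2.2]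
  have k4 : X * ((2 + cc f g κ X D r) / 4) - X * V = X / 4 * (cc f g κ X D r - EX) := by rw [hV]; ring
  rw [k4, abs_mul, abs_of_pos (by positivity)] at k3
  have k5 : X / 4 * |cc f g κ X D r - EX| ≤ X / 4 * (8 * E + 24 * 2 ^ j / X) := by
    refine k3.trans (le_of_eq ?_)
    field_simp
    ring
  exact le_of_mul_le_mul_left k5 (by positivity)

end Pool.Agent.J4H55.PC
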