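import Mathlib
import Pool.Agent.J4H26.PC.Q1
import Pool.Agent.J4H55.PC.Ft1

set_option autoImplicit false

/-! Project PC, part B2: one stage from any label, by the swap of the two members of a pair. -/

namespace Pool.Agent.J4H55.PC

open Finset Filter Real
open Pool.Agent.J4H39 (T od rh ex pb ns rn stP stK lb GK GS Cm DV th0 Per Rel sw)
open Pool.Agent.J4H26.PC
open Pool.Agent.J4H95.PC

theorem rh_le (j : ℕ) (x : ℤ) : rh j x + 2 ^ j ≤ 3 ^ j := by
  induction j with
  | zero => simp [rh]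
  | succ j ih =>
    have h2 : (2 : ℕ) ^ j ≤ 3 ^ j := Nat.pow_le_pow_left (by norm_num) j
    rw [rh]
    split_ifs
    · rw [pow_succ, pow_succ]; omega
    · rw [pow_succ, pow_succ]; omega

/-- the offset at a label with exponent zero -/
theorem off_bd {s : ℤ × ℤ} {y y' : ℤ} (h : Rel s y y') (hs : s.1 ≤ 0) (j : ℕ) (h0 : (rn stP j s y).1 = 0) :
    2 ^ j * |(rn stP j s y).2| ≤ 3 ^ j * (|s.2| + 1) := by
  obtain ⟨h1, h2⟩ := Pool.Agent.J4H39.rel_rn h j
  unfold Pool.Agent.J4H39.Rel at h h1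
  rw [h0] at h1 h2
  simp only [neg_zero, Int.toNat_zero, pow_zero, one_mul] at h1
  have e1 : (s.1.toNat) = 0 := by omega
  rw [e1, pow_zero, one_mul] at h
  have i1 := Pool.Agent.J4H39.iter_eq j y
  have i2 := Pool.Agent.J4H39.iter_eq j y'
  have ho : od j y' = od j y + (-s.1).toNat := by omega
  rw [ho, pow_add, mul_assoc, h] at i2
  have key : 2 ^ j * (rn stP j s y).2 = 3 ^ od j y * s.2 + (rh j y' : ℤ) - rh j y := by
    linear_combination i2 - i1 - 2 ^ j * h1
  have b1 := rh_le j y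
  have b2 := rh_le j y'
  have b1' : (rh j y : ℤ) ≤ 3 ^ j := by
    have : rh j y ≤ 3 ^ j := le_trans (Nat.le_add_right _ _) b1
    exact_mod_cast this
  have b2' : (rh j y' : ℤ) ≤ 3 ^ j := by
    have : rh j y' ≤ 3 ^ j := le_trans (Nat.le_add_right _ _) b2
    exact_mod_cast this
  have b3 : (3 : ℤ) ^ od j y * |s.2| ≤ 3 ^ j * |s.2| :=
    mul_le_mul_of_nonneg_right (pow_le_pow_right₀ (by norm_num) (Pool.Agent.J4H39.od_le j y)) (abs_nonneg _)
  have b4 : (0 : ℤ) ≤ rh j y := by positivity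
  have b5 : (0 : ℤ) ≤ rh j y' := by positivity
  have b6 : |(3 : ℤ) ^ od j y * s.2| = 3 ^ od j y * |s.2| := by rw [abs_mul, abs_of_pos (by positivity)]
  have b7 : |2 ^ j * (rn stP j s y).2| = 2 ^ j * |(rn stP j s y).2| := by rw [abs_mul, abs_of_pos (by positivity)]
  rw [← b7, key]
  have b8 := abs_le.1 (le_of_eq b6)
  rw [abs_le]
  constructor <;> linarith [b8.1, b8.2]

/-- shift of the summation -/
theorem cc_shift {f g : ℤ → ℝ} (hf : Iv f) (hg : Iv g) {κ X : ℝ} (hX : 1 ≤ X) (r : ℤ) :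
    |cc f g κ X 0 r - cc g f κ X 0 (-r)| ≤ 2 * |(r : ℝ)| / X := by
  have hX0 : 0 < X := by linarith
  unfold cc
  rw [max_eq_left hX, ← sub_div, abs_div, abs_of_pos hX0]
  apply div_le_div_of_nonneg_right _ hX0.le
  have e1 : ∑ n ∈ Finset.Ico ⌈κ * X⌉ ⌈κ * X + X⌉, g n * f (3 ^ 0 * n + -r) =
      ∑ n ∈ Finset.Ico (⌈κ * X⌉ - r) (⌈κ * X + X⌉ - r), f n * g (3 ^ 0 * n + r) := by
    have h := Finset.sum_Ico_add' (fun n : ℤ => f n * g (3 ^ 0 * n + r)) ⌈κ * X⌉ ⌈κ * X + X⌉ (-r)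
    rw [← sub_eq_add_neg, ← sub_eq_add_neg] at h
    rw [← h]
    apply sum_congr rfl
    intro n _
    rw [pow_zero, one_mul, one_mul, neg_add_cancel_right, mul_comm]
  rw [e1]
  have h := sum_Ico_diff (F := fun n => f n * g (3 ^ 0 * n + r)) (B := 1) zero_le_one (fun n => fg_bd hf hg _ _)
    ⌈κ * X⌉ ⌈κ * X + X⌉ (⌈κ * X⌉ - r) (⌈κ * X + X⌉ - r)
  refine h.trans (le_of_eq ?_)
  push_cast
  rw [sub_sub_cancel, sub_sub_cancel]
  ring

theorem ex_diff_le {j : ℕ} {F G : ℤ → ℝ} {c : ℝ} (h : ∀ y, |F y - G y| ≤ c) : |ex j F - ex j G| ≤ c := by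
  have hsub : ex j F - ex j G = ex j (fun y => F y - G y) := by
    have h := Pool.Agent.J4H39.ex_add j F (fun y => (-1) * G y)
    rw [Pool.Agent.J4H39.ex_mul] at h
    have h2 : ex j (fun y => F y - G y) = ex j (fun y => F y + (-1) * G y) :=
      Pool.Agent.J4H39.ex_congr (fun y => by ring)
    rw [h2, h]; ring
  rw [hsub]
  exact ex_abs' h

theorem t_G1 (h : S_G1P) : S_G1 := by
  obtain ⟨C, hC, hev⟩ := h
  refine ⟨C + 2, by positivity, ?_⟩
  filter_upwards [hev, eventually_ge_atTop 2] with w h1 h2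
  intro j hj1 hj2 f g hf hg κ hκ X hX s hs1 hs2
  have hw0 : (0 : ℝ) < w := by exact_mod_cast (by omega : 0 < w)
  have hCw : C / (w : ℝ) ≤ (C + 2) / w := by
    apply div_le_div_of_nonneg_right _ hw0.le
    linarith
  have hwj : w ≤ j := le_trans (Nat.le_self_pow (by norm_num) w) hj1
  have hj0 : 1 ≤ j := by omega
  have hX0 : 0 < X := lt_of_lt_of_le (by positivity) hX
  have h3j : (2 : ℝ) ^ (3 * j) ≤ X := le_trans (pow_le_pow_right₀ (by norm_num) (by omega)) hX
  rcases le_or_gt 0 s.1 with hD | hD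
  · obtain ⟨D, hD'⟩ := Int.eq_ofNat_of_zero_le hD
    have hsD : s = ((D : ℤ), s.2) := Prod.ext hD' rfl
    have htn : s.1.toNat = D := by rw [hD']; rfl
    have hDw : D ≤ w ^ 48 := by
      rw [hD', Nat.abs_cast] at hs1
      exact_mod_cast hs1
    have main := h1 j hj1 hj2 f g hf hg κ hκ X h3j D s.2 hDw hs2
    rw [← hsD] at main
    have e1 : cg f g κ X s = cc f g κ X D s.2 := by
      unfold cg
      rw [if_pos hD, htn]
    rw [e1]
    exact main.trans hCw
  · obtain ⟨D, hD'⟩ := Int.eq_ofNat_of_zero_le (show 0 ≤ -s.1 by omega)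
    have htn : (-s.1).toNat = D := by rw [hD']; rfl
    have htn0 : s.1.toNat = 0 := by omega
    have hDw : D ≤ w ^ 48 := by
      rw [← abs_neg, hD', Nat.abs_cast] at hs1
      exact_mod_cast hs1
    have hsw : sw s = ((D : ℤ), -s.2) := by unfold sw; rw [hD']
    have hDj : D ≤ j / 2 := by
      have a1 : 2 * w ^ 48 ≤ w ^ 80 := by
        calc 2 * w ^ 48 ≤ w * w ^ 48 := Nat.mul_le_mul_right _ h2
          _ = w ^ 49 := by ring
          _ ≤ w ^ 80 := Nat.pow_le_pow_right (by omega) (by norm_num)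
      omega
    have h3D : (3 : ℝ) ^ D ≤ 2 ^ j := by
      calc (3 : ℝ) ^ D ≤ 4 ^ D := pow_le_pow_left₀ (by norm_num) (by norm_num) D
        _ = 2 ^ (2 * D) := by rw [pow_mul]; norm_num
        _ ≤ 2 ^ j := pow_le_pow_right₀ (by norm_num) (by omega)
    have hX' : (2 : ℝ) ^ (3 * j) ≤ X / 3 ^ D := by
      rw [le_div_iff₀ (by positivity)]
      calc (2 : ℝ) ^ (3 * j) * 3 ^ D ≤ 2 ^ (3 * j) * 2 ^ j := mul_le_mul_of_nonneg_left h3D (by positivity)
        _ = 2 ^ (4 * j) := by rw [← pow_add]; congr 1; ring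
        _ ≤ X := hX
    have main := h1 j hj1 hj2 g f hg hf κ hκ (X / 3 ^ D) hX' D (-s.2) hDw (by rw [abs_neg]; exact hs2)
    have e1 : cg f g κ X s = cc g f κ (X / 3 ^ D) D (-s.2) := by
      unfold cg
      rw [if_neg (by omega), htn]
    rw [← e1] at main
    have hper : Per j (fun y => cg f g κ (3 ^ od j y * X / 2 ^ j) (rn stP j s y)) := by
      intro x u
      simp only
      rw [Pool.Agent.J4H39.per_od (le_refl j) x u, Pool.Agent.J4H39.per_rn stP s (le_refl j) x u]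
    have e2 := Pool.Agent.J4H39.ex_affine j hper (Pool.Agent.J4H39.pow3_odd D) (-s.2)
    have hd : |ex j (fun y => cg g f κ (3 ^ od j y * (X / 3 ^ D) / 2 ^ j) (rn stP j ((D : ℤ), -s.2) y)) -
        ex j (fun y => cg f g κ (3 ^ od j y * X / 2 ^ j) (rn stP j s y))| ≤ 2 / w := by
      rw [← e2]
      apply ex_diff_le
      intro y'
      obtain ⟨y, hy⟩ : ∃ y, y = 3 ^ D * y' + -s.2 := ⟨_, rfl⟩
      rw [← hy]
      have hrel : Pool.Agent.J4H39.Rel s y y' := by
        unfold Pool.Agent.J4H39.Rel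
        rw [htn, htn0, hy]; ring
      have r1 := Pool.Agent.J4H39.rn_sw hrel j
      rw [hsw] at r1
      rw [r1]
      obtain ⟨-, r2⟩ := Pool.Agent.J4H39.rel_rn hrel j
      obtain ⟨t, ht⟩ : ∃ t, t = rn stP j s y := ⟨_, rfl⟩
      have hoff := off_bd hrel hD.le j
      rw [← ht] at r2 hoff ⊢
      have h2j : (0 : ℝ) < 2 ^ j := by positivity
      rcases lt_trichotomy t.1 0 with ht0 | ht0 | ht0
      · -- negative
        have a1 : cg f g κ (3 ^ od j y * X / 2 ^ j) t =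
            cc g f κ (3 ^ od j y * X / 2 ^ j / 3 ^ (-t.1).toNat) (-t.1).toNat (-t.2) := by
          unfold cg; rw [if_neg (by omega)]
        have a2 : cg g f κ (3 ^ od j y' * (X / 3 ^ D) / 2 ^ j) (sw t) =
            cc g f κ (3 ^ od j y' * (X / 3 ^ D) / 2 ^ j) (-t.1).toNat (-t.2) := by
          unfold cg sw; rw [if_pos (by simp only; omega)]
        have a3 : od j y' + (-t.1).toNat = od j y + D := by omega
        have a4 : (3 : ℝ) ^ od j y' * 3 ^ (-t.1).toNat = 3 ^ od j y * 3 ^ D := by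
          rw [← pow_add, ← pow_add, a3]
        have a5 : (3 : ℝ) ^ od j y' * (X / 3 ^ D) / 2 ^ j = 3 ^ od j y * X / 2 ^ j / 3 ^ (-t.1).toNat := by
          field_simp
          exact a4.trans (mul_comm _ _)
        rw [a1, a2, a5, sub_self, abs_zero]
        positivity
      · -- zero
        have a1 : cg f g κ (3 ^ od j y * X / 2 ^ j) t = cc f g κ (3 ^ od j y * X / 2 ^ j) 0 t.2 := by
          unfold cg; rw [if_pos (by omega), ht0]; rfl
        have a2 : cg g f κ (3 ^ od j y' * (X / 3 ^ D) / 2 ^ j) (sw t) =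
            cc g f κ (3 ^ od j y' * (X / 3 ^ D) / 2 ^ j) 0 (-t.2) := by
          unfold cg sw; simp only; rw [ht0, neg_zero, if_pos le_rfl]; rfl
        have a3 : od j y' = od j y + D := by omega
        have a5 : (3 : ℝ) ^ od j y' * (X / 3 ^ D) / 2 ^ j = 3 ^ od j y * X / 2 ^ j := by
          rw [a3, pow_add]
          field_simp
        have hXy : (2 : ℝ) ^ (3 * j) ≤ 3 ^ od j y * X / 2 ^ j := by
          rw [le_div_iff₀ h2j]
          calc (2 : ℝ) ^ (3 * j) * 2 ^ j = 2 ^ (4 * j) := by rw [← pow_add]; congr 1; ring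
            _ ≤ X := hX
            _ = 1 * X := (one_mul X).symm
            _ ≤ 3 ^ od j y * X := mul_le_mul_of_nonneg_right (one_le_pow₀ (by norm_num)) hX0.le
        have hXy1 : 1 ≤ (3 : ℝ) ^ od j y * X / 2 ^ j := le_trans (one_le_pow₀ (by norm_num)) hXy
        rw [a1, a2, a5, abs_sub_comm]
        refine (cc_shift hf hg hXy1 t.2).trans ?_
        have b1 : (2 : ℝ) ^ j * |(t.2 : ℝ)| ≤ 3 ^ j * (|(s.2 : ℝ)| + 1) := by exact_mod_cast hoff ht0
        have b2 : |(s.2 : ℝ)| ≤ 4 ^ (w ^ 56) := by exact_mod_cast hs2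
        have b3 : (4 : ℝ) ^ (w ^ 56) + 1 ≤ 2 ^ j := by
          have c1 : 2 * w ^ 56 + 1 ≤ j := by
            have a1 : 2 * w ^ 56 ≤ w ^ 57 := by
              calc 2 * w ^ 56 ≤ w * w ^ 56 := Nat.mul_le_mul_right _ h2
                _ = w ^ 57 := by ring
            have a2 : w ^ 57 < w ^ 80 := Nat.pow_lt_pow_right (by omega) (by norm_num)
            omega
          have c2 : (4 : ℝ) ^ (w ^ 56) = 2 ^ (2 * w ^ 56) := by rw [pow_mul]; norm_num
          have c3 : (1 : ℝ) ≤ 2 ^ (2 * w ^ 56) := one_le_pow₀ (by norm_num)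
          calc (4 : ℝ) ^ (w ^ 56) + 1 ≤ 2 ^ (2 * w ^ 56) * 2 := by rw [c2]; linarith
            _ = 2 ^ (2 * w ^ 56 + 1) := (pow_succ _ _).symm
            _ ≤ 2 ^ j := pow_le_pow_right₀ (by norm_num) c1
        have b4 : (2 : ℝ) ^ j * |(t.2 : ℝ)| ≤ 4 ^ j * 2 ^ j := by
          refine b1.trans ?_
          have : (3 : ℝ) ^ j ≤ 4 ^ j := pow_le_pow_left₀ (by norm_num) (by norm_num) j
          apply mul_le_mul this (by linarith) (by positivity) (by positivity)
        have b5 : |(t.2 : ℝ)| ≤ 4 ^ j := by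
          have : (2 : ℝ) ^ j * |(t.2 : ℝ)| ≤ 2 ^ j * 4 ^ j := by linarith
          exact le_of_mul_le_mul_left this h2j
        have b6 : (4 : ℝ) ^ j * 2 ^ j = 2 ^ (3 * j) := by
          have : (4 : ℝ) ^ j = 2 ^ (2 * j) := by rw [pow_mul]; norm_num
          rw [this, ← pow_add]; congr 1; ring
        have b7 : (w : ℝ) ≤ 2 ^ j := by
          have : w ≤ 2 ^ j := hwj.trans Nat.lt_two_pow_self.le
          exact_mod_cast this
        calc 2 * |(t.2 : ℝ)| / (3 ^ od j y * X / 2 ^ j) ≤ 2 * 4 ^ j / (2 ^ (3 * j)) := by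
              gcongr
          _ = 2 / 2 ^ j := by rw [← b6]; field_simp
          _ ≤ 2 / w := by
              apply div_le_div_of_nonneg_left (by norm_num) hw0 b7
      · -- positive
        have a1 : cg f g κ (3 ^ od j y * X / 2 ^ j) t = cc f g κ (3 ^ od j y * X / 2 ^ j) t.1.toNat t.2 := by
          unfold cg; rw [if_pos ht0.le]
        have a2 : cg g f κ (3 ^ od j y' * (X / 3 ^ D) / 2 ^ j) (sw t) =
            cc f g κ (3 ^ od j y' * (X / 3 ^ D) / 2 ^ j / 3 ^ t.1.toNat) t.1.toNat t.2 := by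
          unfold cg sw
          simp only [neg_neg]
          rw [if_neg (by omega)]
        have a3 : od j y' = od j y + D + t.1.toNat := by omega
        have a5 : (3 : ℝ) ^ od j y' * (X / 3 ^ D) / 2 ^ j / 3 ^ t.1.toNat = 3 ^ od j y * X / 2 ^ j := by
          rw [a3, pow_add, pow_add]
          field_simp
        rw [a1, a2, a5, sub_self, abs_zero]
        positivity
    have := abs_sub_le (cg f g κ X s)
      (ex j (fun y => cg g f κ (3 ^ od j y * (X / 3 ^ D) / 2 ^ j) (rn stP j ((D : ℤ), -s.2) y)))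
      (ex j (fun y => cg f g κ (3 ^ od j y * X / 2 ^ j) (rn stP j s y)))
    refine this.trans ((add_le_add main hd).trans (le_of_eq ?_))
    ring

end Pool.Agent.J4H55.PC
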