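import Mathlib
import Pool.Agent.J4H26.PC.Q1
import Pool.Agent.J4H26.PC.B2
import Pool.Agent.J4H39.M7

set_option autoImplicit false

/-! Project PC, part B7: the mean squares of the window averages. -/

namespace Pool.Agent.J4H55.PC

open Finset Filter Real
open Pool.Agent.J4H39 (T od rh ex pb ns rn stP stK lb GK GS Cm DV th0 Per Rel sw id1 pb_id1 id1_nonneg id1_pos id1_neg
  ex_mono ex_add ex_mul ex_const ex_congr th0_lt th0_gt th0_pos ns_nonneg ns_le_one)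
open Pool.Agent.J4H26.PC

theorem ns_z (k : ℕ) : ns k (0, 0) = 0 := by
  unfold ns
  rw [pb_id1, ← ex_const k 0]
  apply ex_congr
  intro y
  rw [Pool.Agent.J4H39.rn_zero]
  exact id1_neg (by simp)

theorem ns_anti {t t' : ℕ} (h : t ≤ t') (s : ℤ × ℤ) : ns t' s ≤ ns t s := by
  obtain ⟨k, rfl⟩ := Nat.exists_eq_add_of_le h
  rw [Pool.Agent.J4H39.ns_tower]
  show _ ≤ pb t (fun y => rn stP t s y ≠ (0, 0))
  rw [pb_id1]
  apply ex_mono
  intro y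
  by_cases hy : rn stP t s y = (0, 0)
  · rw [hy, ns_z]
    exact id1_nonneg _
  · rw [id1_pos hy]
    exact ns_le_one _ _

/-- comparison with a variable error, outside rare words -/
theorem ex_cmpR {s : ℕ} {F G R : ℤ → ℤ → ℝ} {Bad : ℤ → Prop} {M : ℝ} (hM : 0 ≤ M) (hR : ∀ y y', 0 ≤ R y y')
    (h1 : ∀ y y', ¬ Bad y → ¬ Bad y' → |F y y' - G y y'| ≤ R y y') (h2 : ∀ y y', |F y y' - G y y'| ≤ M) :
    |ex s (fun y => ex s (F y)) - ex s (fun y => ex s (G y))| ≤ ex s (fun y => ex s (R y)) + 2 * M * pb s Bad := by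
  have key : ∀ y y', |F y y' - G y y'| ≤ R y y' + M * id1 (Bad y') + M * id1 (Bad y) := by
    intro y y'
    have i1 := mul_nonneg hM (id1_nonneg (Bad y))
    have i2 := mul_nonneg hM (id1_nonneg (Bad y'))
    have i3 := hR y y'
    have i4 := h2 y y'
    by_cases hy : Bad y
    · rw [id1_pos hy] at i1 ⊢; linarith
    · by_cases hy' : Bad y'
      · rw [id1_pos hy'] at i2 ⊢; linarith
      · have := h1 y y' hy hy'; linarith
  have h3 := Pool.Agent.J4H39.ex_abs (s := s) (fun y => Pool.Agent.J4H39.ex_abs (s := s) (key y))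
  refine h3.trans (le_of_eq ?_)
  have e1 : ∀ y, ex s (fun y' => R y y' + M * id1 (Bad y') + M * id1 (Bad y)) =
      (ex s (R y) + M * pb s Bad) + M * id1 (Bad y) := by
    intro y
    rw [ex_add, ex_add, ex_const, ex_mul, ← pb_id1]
  rw [ex_congr e1, ex_add, ex_add, ex_const, ex_mul, ← pb_id1]
  ring

theorem root_bd (k : ℕ) (hk : k ≠ 0) {L : ℝ} (hL : 0 ≤ L) :
    ((⌊L ^ ((k : ℝ)⁻¹)⌋₊ : ℕ) : ℝ) ^ k ≤ L ∧ L ≤ (((⌊L ^ ((k : ℝ)⁻¹)⌋₊ : ℕ) : ℝ) + 1) ^ k := by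
  have h0 : 0 ≤ L ^ ((k : ℝ)⁻¹) := Real.rpow_nonneg hL _
  have e : (L ^ ((k : ℝ)⁻¹)) ^ k = L := Real.rpow_inv_natCast_pow hL hk
  constructor
  · calc ((⌊L ^ ((k : ℝ)⁻¹)⌋₊ : ℕ) : ℝ) ^ k ≤ (L ^ ((k : ℝ)⁻¹)) ^ k := pow_le_pow_left₀ (by positivity) (Nat.floor_le h0) k
      _ = L := e
  · calc L = (L ^ ((k : ℝ)⁻¹)) ^ k := e.symm
      _ ≤ _ := pow_le_pow_left₀ h0 (Nat.lt_floor_add_one _).le k

theorem root_tend (k : ℕ) (hk : k ≠ 0) : Tendsto (fun N : ℕ => ⌊(logb 2 (N : ℝ)) ^ ((k : ℝ)⁻¹)⌋₊) atTop atTop := by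
  apply tendsto_nat_floor_atTop.comp
  apply (tendsto_rpow_atTop (by positivity)).comp
  exact (Real.tendsto_logb_atTop (by norm_num)).comp tendsto_natCast_atTop_atTop

theorem pow_two_bd {w : ℕ} (k : ℕ) (hw : 2 * k ≤ w + 1) : ((w : ℝ) + 1) ^ k ≤ 2 * (w : ℝ) ^ k := by
  have h0 : (0 : ℝ) < (w : ℝ) + 1 := by positivity
  have h1 := one_add_mul_le_pow (a := -(1 / ((w : ℝ) + 1))) (by
    have : 1 / ((w : ℝ) + 1) ≤ 1 := by rw [div_le_one h0]; linarith [Nat.cast_nonneg (α := ℝ) w]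
    linarith) k
  have h2 : (k : ℝ) * (1 / ((w : ℝ) + 1)) ≤ 1 / 2 := by
    rw [mul_one_div, div_le_div_iff₀ h0 (by norm_num)]
    have : (2 : ℝ) * k ≤ w + 1 := by exact_mod_cast hw
    linarith
  have e : 1 + -(1 / ((w : ℝ) + 1)) = w / (w + 1) := by field_simp; ring
  rw [e] at h1
  have h3 : (1 : ℝ) / 2 ≤ (w / (w + 1)) ^ k := by linarith
  rw [div_pow, div_le_div_iff₀ (by norm_num) (by positivity)] at h3
  linarith

theorem frac_bd {θ δ S W L : ℝ} (hθ0 : 0 < θ) (hθ1 : θ < 1) (hδ : 0 < δ) (hδ2 : δ ≤ 1 / 2) (hL : 0 < L)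
    (h1 : |S - θ * L| ≤ δ * L) (h2 : |W - L| ≤ δ * L) : |S / W - θ| ≤ 4 * δ := by
  have hδL : δ * L ≤ L / 2 := by nlinarith
  rw [abs_le] at h1 h2
  have hW : L / 2 ≤ W := by linarith
  have hW0 : 0 < W := by linarith
  have e : S / W - θ = (S - θ * W) / W := by field_simp
  rw [e, abs_div, abs_of_pos hW0, div_le_iff₀ hW0]
  have h3 : 2 * (δ * L) ≤ 4 * δ * W := by nlinarith
  have h4 : |S - θ * W| ≤ 2 * (δ * L) := by
    have h5 : θ * (W - L) ≤ δ * L := by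
      rcases le_or_gt 0 (W - L) with h | h
      · nlinarith
      · have : 0 < δ * L := by positivity
        nlinarith
    have h6 : -(δ * L) ≤ θ * (W - L) := by
      rcases le_or_gt 0 (W - L) with h | h
      · have : 0 < δ * L := by positivity
        have := mul_nonneg hθ0.le h
        linarith
      · nlinarith
    rw [abs_le]
    constructor <;> linarith
  linarith

theorem pw {c K : ℝ} {w : ℕ} (a b : ℕ) (hw : 1 ≤ w) (hab : a < b) (hc : 0 < c) (h : K ≤ c * w) :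
    K * (w : ℝ) ^ a ≤ c * (w : ℝ) ^ b := by
  have hw1 : (1 : ℝ) ≤ w := by exact_mod_cast hw
  calc K * (w : ℝ) ^ a ≤ (c * w) * (w : ℝ) ^ a := mul_le_mul_of_nonneg_right h (by positivity)
    _ = c * (w : ℝ) ^ (a + 1) := by rw [pow_succ]; ring
    _ ≤ c * (w : ℝ) ^ b := mul_le_mul_of_nonneg_left (pow_le_pow_right₀ hw1 hab) hc.le

/-- the number of steps for a window of length `2 ^ A` -/
theorem steps {θ δ L A : ℝ} {w : ℕ} (hθ1 : θ < 1) (hδ0 : 0 < δ) (hδ3 : δ ≤ (1 - θ) / 4) (hδ4 : δ ≤ θ / 2)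
    (hw : 1 ≤ w) (hw2 : 1000 ≤ δ * w) (hL0 : 0 < L) (hLw1 : (w : ℝ) ^ 85 ≤ L) (hLw2 : L ≤ 2 * (w : ℝ) ^ 85)
    (hA1 : θ * L - 1 ≤ A) (hA2 : A ≤ θ * L + 1) :
    ∃ s : ℕ, w ^ 52 ≤ s ∧ s ≤ 100 * w ^ 88 ∧ |A - th0 * s - (w : ℝ) ^ 53| ≤ 1 ∧ 2 * (w : ℝ) ^ 80 + A ≤ L ∧
      |th0 * s - θ * L| ≤ δ * L ∧ th0 * s ≤ θ * L + 1 ∧ (s : ℝ) ≤ 10 * L := by
  have hth0 := th0_pos
  have hth1 := th0_lt
  have hth2 := th0_gt
  have hw1' : (1 : ℝ) ≤ w := by exact_mod_cast hw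
  have p1 := pw 53 85 hw (by norm_num) hδ0 hw2
  have p2 := pw 80 85 hw (by norm_num) hδ0 hw2
  have p3 := pw 0 85 hw (by norm_num) hδ0 hw2
  have p4 := pw 52 85 hw (by norm_num) hδ0 hw2
  rw [pow_zero, mul_one] at p3
  have p10 : (0 : ℝ) ≤ (w : ℝ) ^ 53 := by positivity
  have p11 : (0 : ℝ) ≤ (w : ℝ) ^ 52 := by positivity
  have p12 : (0 : ℝ) ≤ (w : ℝ) ^ 80 := by positivity
  have p13 : (0 : ℝ) ≤ (w : ℝ) ^ 85 := by positivity
  have p14 : (w : ℝ) ^ 85 ≤ (w : ℝ) ^ 88 := pow_le_pow_right₀ hw1' (by norm_num)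
  have hδLw : δ * (w : ℝ) ^ 85 ≤ δ * L := mul_le_mul_of_nonneg_left hLw1 hδ0.le
  have hδL3 : 4 * (δ * L) ≤ (1 - θ) * L := by
    have := mul_le_mul_of_nonneg_right hδ3 hL0.le
    linarith
  have hδL4 : 2 * (δ * L) ≤ θ * L := by
    have := mul_le_mul_of_nonneg_right hδ4 hL0.le
    linarith
  have hθL : θ * L ≤ L := by
    have := mul_le_mul_of_nonneg_right hθ1.le hL0.le
    linarith
  have e1 : (1 - θ) * L = L - θ * L := by ring
  rw [e1] at hδL3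
  obtain ⟨s, hsd⟩ : ∃ s : ℕ, s = ⌊(A - (w : ℝ) ^ 53) / th0⌋₊ := ⟨_, rfl⟩
  have hs1 : th0 * s ≤ A - (w : ℝ) ^ 53 := by
    have h : (s : ℝ) ≤ (A - (w : ℝ) ^ 53) / th0 := by
      rw [hsd]; apply Nat.floor_le
      apply div_nonneg _ hth0.le
      linarith
    rw [le_div_iff₀ hth0] at h
    linarith
  have hs2 : A - (w : ℝ) ^ 53 < th0 * s + th0 := by
    have h := Nat.lt_floor_add_one ((A - (w : ℝ) ^ 53) / th0)
    rw [← hsd, div_lt_iff₀ hth0] at h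
    linarith
  clear hsd
  have hs00 := Nat.cast_nonneg (α := ℝ) s
  have hSs : th0 * (s : ℝ) ≤ s := by
    have := mul_le_mul_of_nonneg_right (by linarith : th0 ≤ 1) hs00
    linarith
  have hsS : (s : ℝ) ≤ 5 * (th0 * s) := by
    have := mul_le_mul_of_nonneg_right hth2.le hs00
    linarith
  refine ⟨s, ?_, ?_, ?_, ?_, ?_, ?_, ?_⟩
  · have : (w : ℝ) ^ 52 ≤ s := by linarith
    exact_mod_cast this
  · have : (s : ℝ) ≤ 100 * (w : ℝ) ^ 88 := by linarith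
    exact_mod_cast this
  · rw [abs_le]; constructor <;> linarith
  · linarith
  · rw [abs_le]; constructor <;> linarith
  · linarith
  · linarith

/-- the exponents -/
theorem expos {θ δ L S : ℝ} {v k₀ : ℕ} (hδ0 : 0 < δ) (hδ2 : δ ≤ 1 / 2) (hδ3 : δ ≤ (1 - θ) / 4)
    (hv : 1 ≤ v) (hv2 : 1000 ≤ δ * v) (hk : k₀ ≤ v) (hL0 : 0 < L) (hLv1 : (v : ℝ) ^ 95 ≤ L) (hS0 : 0 ≤ S) (hSL : S ≤ θ * L + 1) :
    ∃ t1 t3 : ℕ, k₀ ≤ t1 ∧ t1 ≤ t3 ∧ |S + th0 * t1 - L| ≤ δ * L ∧ |S + th0 * t3 - L| ≤ δ * L ∧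
      ∀ (t : ℕ) (Y : ℝ), |Y - (L - S)| ≤ (v : ℝ) ^ 48 / 8 → 9 * (v : ℝ) ^ 88 ≤ Y - th0 * t → Y - th0 * t ≤ 12 * (v : ℝ) ^ 88 →
        t1 ≤ t ∧ t + ⌊δ / 2 * (t : ℝ)⌋₊ ≤ t3 := by
  have hth0 := th0_pos
  have hth1 := th0_lt
  have hth2 := th0_gt
  have hv1' : (1 : ℝ) ≤ v := by exact_mod_cast hv
  have p5 := pw 88 95 hv (by norm_num) hδ0 hv2
  have p6 := pw 48 95 hv (by norm_num) hδ0 hv2
  have p7 := pw 0 95 hv (by norm_num) hδ0 hv2
  rw [pow_zero, mul_one] at p7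
  have p8 : (v : ℝ) ^ 48 ≤ (v : ℝ) ^ 88 := pow_le_pow_right₀ hv1' (by norm_num)
  have p9 : (1 : ℝ) ≤ (v : ℝ) ^ 48 := one_le_pow₀ hv1'
  have p10 : (v : ℝ) ≤ (v : ℝ) ^ 88 := le_self_pow₀ hv1' (by norm_num)
  have hδLv : δ * (v : ℝ) ^ 95 ≤ δ * L := mul_le_mul_of_nonneg_left hLv1 hδ0.le
  have hδL3 : 4 * (δ * L) ≤ (1 - θ) * L := by
    have := mul_le_mul_of_nonneg_right hδ3 hL0.le
    linarith
  have e1 : (1 - θ) * L = L - θ * L := by ring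
  rw [e1] at hδL3
  have hLS : 0 ≤ L - S := by linarith
  obtain ⟨Q, hQd⟩ : ∃ Q : ℕ, Q = ⌊(L - S) / th0⌋₊ := ⟨_, rfl⟩
  have hQ1 : th0 * Q ≤ L - S := by
    have h : (Q : ℝ) ≤ (L - S) / th0 := by
      rw [hQd]; apply Nat.floor_le
      exact div_nonneg hLS hth0.le
    rw [le_div_iff₀ hth0] at h
    linarith
  have hQ2 : L - S < th0 * Q + th0 := by
    have h := Nat.lt_floor_add_one ((L - S) / th0)
    rw [← hQd, div_lt_iff₀ hth0] at h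
    linarith
  clear hQd
  obtain ⟨E, hEd⟩ : ∃ E : ℕ, E = 70 * v ^ 88 := ⟨_, rfl⟩
  have hEr : (E : ℝ) = 70 * (v : ℝ) ^ 88 := by rw [hEd]; push_cast; ring
  have hv88 : 0 ≤ (v : ℝ) ^ 88 := by positivity
  have hE1 : 14 * (v : ℝ) ^ 88 ≤ th0 * E := by
    rw [hEr]
    have := mul_le_mul_of_nonneg_right hth2.le hv88
    linarith
  have hE2 : th0 * E ≤ 18 * (v : ℝ) ^ 88 := by
    rw [hEr]
    have := mul_le_mul_of_nonneg_right hth1.le hv88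
    linarith
  clear hEd
  have hEQ : E ≤ Q := by
    have h : th0 * (E : ℝ) ≤ th0 * Q := by linarith
    have := le_of_mul_le_mul_left h hth0
    exact_mod_cast this
  have hfl : (⌊δ / 2 * ((Q + E : ℕ) : ℝ)⌋₊ : ℝ) ≤ δ / 2 * ((Q + E : ℕ) : ℝ) := Nat.floor_le (by positivity)
  have hfl0 : (0 : ℝ) ≤ (⌊δ / 2 * ((Q + E : ℕ) : ℝ)⌋₊ : ℝ) := by positivity
  have hc1 : th0 * ((Q - E : ℕ) : ℝ) = th0 * Q - th0 * E := by rw [Nat.cast_sub hEQ]; ring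
  have hc2 : th0 * ((Q + E : ℕ) : ℝ) = th0 * Q + th0 * E := by push_cast; ring
  refine ⟨Q - E, (Q + E) + ⌊δ / 2 * ((Q + E : ℕ) : ℝ)⌋₊, ?_, by omega, ?_, ?_, ?_⟩
  · have : (v : ℝ) ≤ ((Q - E : ℕ) : ℝ) := by
      have a0 := Nat.cast_nonneg (α := ℝ) (Q - E)
      have a1 : th0 * ((Q - E : ℕ) : ℝ) ≤ ((Q - E : ℕ) : ℝ) := by
        have := mul_le_mul_of_nonneg_right (by linarith : th0 ≤ 1) a0
        linarith
      linarith
    exact hk.trans (by exact_mod_cast this)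
  · rw [hc1, abs_le]
    constructor <;> linarith
  · have a1 : th0 * (⌊δ / 2 * ((Q + E : ℕ) : ℝ)⌋₊ : ℝ) ≤ th0 * (δ / 2 * ((Q + E : ℕ) : ℝ)) := mul_le_mul_of_nonneg_left hfl hth0.le
    have a2 : th0 * (δ / 2 * ((Q + E : ℕ) : ℝ)) ≤ δ / 2 * (L + 18 * (v : ℝ) ^ 88) := by
      have : th0 * ((Q + E : ℕ) : ℝ) ≤ L + 18 * (v : ℝ) ^ 88 := by rw [hc2]; linarith
      calc th0 * (δ / 2 * ((Q + E : ℕ) : ℝ)) = δ / 2 * (th0 * ((Q + E : ℕ) : ℝ)) := by ring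
        _ ≤ _ := mul_le_mul_of_nonneg_left this (by positivity)
    have a3 : δ / 2 * (18 * (v : ℝ) ^ 88) ≤ 18 * (v : ℝ) ^ 88 := by
      calc δ / 2 * (18 * (v : ℝ) ^ 88) ≤ 1 * (18 * (v : ℝ) ^ 88) := mul_le_mul_of_nonneg_right (by linarith) (by positivity)
        _ = _ := one_mul _
    have a4 : 0 ≤ th0 * (⌊δ / 2 * ((Q + E : ℕ) : ℝ)⌋₊ : ℝ) := by positivity
    have e1 : th0 * (((Q + E) + ⌊δ / 2 * ((Q + E : ℕ) : ℝ)⌋₊ : ℕ) : ℝ) =
        th0 * Q + th0 * E + th0 * (⌊δ / 2 * ((Q + E : ℕ) : ℝ)⌋₊ : ℝ) := by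
      rw [Nat.cast_add, mul_add, hc2]
    have a5 : δ / 2 * (L + 18 * (v : ℝ) ^ 88) = δ * L / 2 + δ / 2 * (18 * (v : ℝ) ^ 88) := by ring
    rw [a5] at a2
    rw [e1, abs_le]
    constructor <;> linarith
  · intro t Y hY h9 h12
    rw [abs_le] at hY
    have g1 : Q - E ≤ t := by
      have : th0 * ((Q - E : ℕ) : ℝ) ≤ th0 * t := by rw [hc1]; linarith
      exact_mod_cast le_of_mul_le_mul_left this hth0
    have g2 : t ≤ Q + E := by
      have : th0 * (t : ℝ) ≤ th0 * ((Q + E : ℕ) : ℝ) := by rw [hc2]; linarith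
      exact_mod_cast le_of_mul_le_mul_left this hth0
    refine ⟨g1, ?_⟩
    apply Nat.add_le_add g2
    apply Nat.floor_le_floor
    have : (t : ℝ) ≤ ((Q + E : ℕ) : ℝ) := by exact_mod_cast g2
    gcongr

theorem ns_sym (k o o' : ℕ) : ns k ((o' : ℤ) - o, 0) = ns k (((max o o' - min o o' : ℕ) : ℤ), 0) := by
  rcases le_total o o' with h | h
  · rw [max_eq_right h, min_eq_left h, Nat.cast_sub h]
  · rw [max_eq_left h, min_eq_right h, ← Pool.Agent.J4H39.ns_sw, Nat.cast_sub h]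
    unfold sw
    simp only [neg_sub, neg_zero]

/-- the heights in `S_CORR` -/
theorem heights {θ δ L S Y : ℝ} {v : ℕ} (hδ0 : 0 < δ) (hδ1 : δ ≤ 1 / 2) (hδ3 : δ ≤ (1 - θ) / 4) (hv : 1 ≤ v)
    (hv2 : 1000 ≤ δ * v) (hv3 : 4 ≤ (1 - θ) * √(v : ℝ)) (hL0 : 0 < L) (hLv1 : (v : ℝ) ^ 95 ≤ L) (hLv2 : L ≤ 2 * (v : ℝ) ^ 95)
    (hS0 : 0 ≤ S) (hSL : S ≤ θ * L + 1) (hY : |Y - (L - S)| ≤ (v : ℝ) ^ 48 / 8) :
    (v : ℝ) ^ 94 * √(v : ℝ) ≤ Y ∧ Y ≤ 3 * (v : ℝ) ^ 95 := by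
  have p6 := pw 48 95 hv (by norm_num) hδ0 hv2
  have p7 := pw 0 95 hv (by norm_num) hδ0 hv2
  rw [pow_zero, mul_one] at p7
  have hδLv : δ * (v : ℝ) ^ 95 ≤ δ * L := mul_le_mul_of_nonneg_left hLv1 hδ0.le
  have hδL3 : 4 * (δ * L) ≤ (1 - θ) * L := by
    have := mul_le_mul_of_nonneg_right hδ3 hL0.le
    linarith
  have b1 : (v : ℝ) ^ 94 * √(v : ℝ) ≤ (1 - θ) / 4 * (v : ℝ) ^ 95 := by
    have b2 : (v : ℝ) = √v * √v := (Real.mul_self_sqrt (Nat.cast_nonneg v)).symm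
    have b3 : (1 - θ) / 4 * (v : ℝ) ^ 95 = (v : ℝ) ^ 94 * √v * ((1 - θ) * √v / 4) := by
      calc (1 - θ) / 4 * (v : ℝ) ^ 95 = (1 - θ) / 4 * ((v : ℝ) ^ 94 * v) := by rw [pow_succ]
        _ = (1 - θ) / 4 * ((v : ℝ) ^ 94 * (√v * √v)) := by rw [← b2]
        _ = _ := by ring
    rw [b3]
    apply le_mul_of_one_le_right (by positivity)
    linarith
  have b4 : (1 - θ) / 4 * (v : ℝ) ^ 95 ≤ (1 - θ) / 4 * L := mul_le_mul_of_nonneg_left hLv1 (by linarith)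
  have b5 : δ * (v : ℝ) ^ 95 ≤ 1 * (v : ℝ) ^ 95 := mul_le_mul_of_nonneg_right (by linarith) (by positivity)
  have e1 : (1 - θ) * L = L - θ * L := by ring
  have e2 : (1 - θ) / 4 * L = (L - θ * L) / 4 := by ring
  rw [e1] at hδL3
  rw [e2] at b4
  rw [abs_le] at hY
  constructor <;> linarith

/-- the pointwise comparison -/
theorem point {ψ : ℝ → ℝ} {f : ℤ → ℝ} {κ q ε δ L S N : ℝ} {v t1 t3 s : ℕ} (hN0 : 0 < N) (hLd : L = logb 2 N) (hSd : S = th0 * s)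
    (hcent : Cent ψ f κ q)
    (hc : ∀ X : ℝ, 0 < X → (v : ℝ) ^ 94 * √v ≤ logb 2 X → logb 2 X ≤ 3 * (v : ℝ) ^ 95 →
      ∃ t : ℕ, 9 * (v : ℝ) ^ 88 ≤ logb 2 X - th0 * t ∧ logb 2 X - th0 * t ≤ 12 * (v : ℝ) ^ 88 ∧
        ∀ (f : ℤ → ℝ) (κ q : ℝ), Cent ψ f κ q → ∀ D : ℕ, 4 * D ≤ v ^ 48 →
        |cc f f κ X D 0 - q * (1 - ns t ((D : ℤ), 0))| ≤ ε + 8 * (ns t ((D : ℤ), 0) - ns (t + ⌊δ / 2 * t⌋₊) ((D : ℤ), 0)))
    (hh : ∀ Y : ℝ, |Y - (L - S)| ≤ (v : ℝ) ^ 48 / 8 → (v : ℝ) ^ 94 * √(v : ℝ) ≤ Y ∧ Y ≤ 3 * (v : ℝ) ^ 95)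
    (ht : ∀ (t : ℕ) (Y : ℝ), |Y - (L - S)| ≤ (v : ℝ) ^ 48 / 8 → 9 * (v : ℝ) ^ 88 ≤ Y - th0 * t → Y - th0 * t ≤ 12 * (v : ℝ) ^ 88 →
        t1 ≤ t ∧ t + ⌊δ / 2 * (t : ℝ)⌋₊ ≤ t3) {m m' : ℕ} (hmm' : m ≤ m') (hmm : |2 * (m : ℝ) - s| < (v : ℝ) ^ 48 / 8)
    (hMM : |2 * (m' : ℝ) - s| < (v : ℝ) ^ 48 / 8) :
    |cc f f κ (3 ^ m * N / 2 ^ s) (m' - m) 0 - q * (1 - ns t1 (((m' - m : ℕ) : ℤ), 0))| ≤
      ε + 9 * (ns t1 (((m' - m : ℕ) : ℤ), 0) - ns t3 (((m' - m : ℕ) : ℤ), 0)) := by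
  have hth0 := th0_pos
  have hth1 := th0_lt
  have hX0 : (0 : ℝ) < 3 ^ m * N / 2 ^ s := by positivity
  have hlog := len_eq (w := 0) (t := s) (m := m) hN0
  rw [← hLd, ← hSd] at hlog
  have h3 : |logb 2 (3 ^ m * N / 2 ^ s) - (L - S)| ≤ (v : ℝ) ^ 48 / 8 := by
    rw [hlog, add_sub_cancel_left, abs_mul, abs_of_pos (by linarith : 0 < 1 - th0)]
    calc (1 - th0) * |2 * (m : ℝ) - s| ≤ 1 * |2 * (m : ℝ) - s| := mul_le_mul_of_nonneg_right (by linarith) (abs_nonneg _)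
      _ ≤ _ := by rw [one_mul]; exact hmm.le
  obtain ⟨c1, c2⟩ := hh _ h3
  obtain ⟨t, hta, htb, hcc⟩ := hc _ hX0 c1 c2
  obtain ⟨g1, g3⟩ := ht t _ h3 hta htb
  have hD : 4 * (m' - m) ≤ v ^ 48 := by
    have : (4 : ℝ) * ((m' - m : ℕ) : ℝ) ≤ (v : ℝ) ^ 48 := by
      rw [Nat.cast_sub hmm']
      rw [abs_lt] at hmm hMM
      linarith
    exact_mod_cast this
  have h4 := hcc f κ q hcent (m' - m) hD
  have r1 := ns_anti g1 (((m' - m : ℕ) : ℤ), 0)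
  have r2 := ns_anti g3 (((m' - m : ℕ) : ℤ), 0)
  have r3 := ns_anti (Nat.le_add_right t ⌊δ / 2 * (t : ℝ)⌋₊) (((m' - m : ℕ) : ℤ), 0)
  have hq0 := hcent.q0
  have hq1 := hcent.q1
  have e5 : cc f f κ (3 ^ m * N / 2 ^ s) (m' - m) 0 - q * (1 - ns t1 (((m' - m : ℕ) : ℤ), 0)) =
      (cc f f κ (3 ^ m * N / 2 ^ s) (m' - m) 0 - q * (1 - ns t (((m' - m : ℕ) : ℤ), 0))) +
      q * (ns t1 (((m' - m : ℕ) : ℤ), 0) - ns t (((m' - m : ℕ) : ℤ), 0)) := by ring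
  have e6 : q * (ns t1 (((m' - m : ℕ) : ℤ), 0) - ns t (((m' - m : ℕ) : ℤ), 0)) ≤
      ns t1 (((m' - m : ℕ) : ℤ), 0) - ns t (((m' - m : ℕ) : ℤ), 0) := mul_le_of_le_one_left (by linarith) hq1
  have e7 : 0 ≤ q * (ns t1 (((m' - m : ℕ) : ℤ), 0) - ns t (((m' - m : ℕ) : ℤ), 0)) := mul_nonneg hq0 (by linarith)
  rw [e5]
  rw [abs_le] at h4 ⊢
  constructor <;> linarith [h4.1, h4.2]

theorem t_VLAW (hS : S_STM) (hG : S_GAM) (hC : S_CORR) : S_VLAW := by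
  intro ψ hψ θ hθ0 hθ1 ε hε
  obtain ⟨C, hC0, h2⟩ := step2 hS hG
  have hcont : Continuous (fun u : ℝ => 2 / π * arcsin √u) :=
    continuous_const.mul (Real.continuous_arcsin.comp Real.continuous_sqrt)
  obtain ⟨δ₀, hδ₀, hδ⟩ := Metric.continuous_iff.1 hcont θ (ε / 80) (by positivity)
  obtain ⟨δ, hδd⟩ : ∃ δ, δ = min (min (δ₀ / 8) (1 / 2)) (min ((1 - θ) / 4) (θ / 2)) := ⟨_, rfl⟩
  have hδ0 : 0 < δ := by
    rw [hδd]
    apply lt_min <;> apply lt_min <;> [positivity; norm_num; linarith; linarith]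
  have hδ1 : δ ≤ δ₀ / 8 := by rw [hδd]; exact (min_le_left _ _).trans (min_le_left _ _)
  have hδ2 : δ ≤ 1 / 2 := by rw [hδd]; exact (min_le_left _ _).trans (min_le_right _ _)
  have hδ3 : δ ≤ (1 - θ) / 4 := by rw [hδd]; exact (min_le_right _ _).trans (min_le_left _ _)
  have hδ4 : δ ≤ θ / 2 := by rw [hδd]; exact (min_le_right _ _).trans (min_le_right _ _)
  clear hδd
  have hφ : ∀ S W L : ℝ, 0 < L → |S - θ * L| ≤ δ * L → |W - L| ≤ δ * L →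
      |2 / π * arcsin √(S / W) - 2 / π * arcsin √θ| ≤ ε / 80 := by
    intro S W L hL h1 h2
    have h3 := frac_bd hθ0 hθ1 hδ0 hδ2 hL h1 h2
    have h4 := hδ (S / W) (by rw [Real.dist_eq]; linarith)
    rw [Real.dist_eq] at h4
    exact h4.le
  obtain ⟨k₀, s₀, hK⟩ := Pool.Agent.J4H39.K_law (show 0 < ε / 80 by positivity) (C := 4 / (1 - θ)) (by
    have : 0 < 1 - θ := by linarith
    positivity)
  have hc := hC ψ hψ (ε / 8) (δ / 2) (by positivity) (by positivity)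
  have hwev : ∀ᶠ w : ℕ in atTop, C / √(w : ℝ) ≤ ε / 8 ∧ 1000 ≤ δ * w ∧ s₀ ≤ w ∧ 200 ≤ w := by
    have e1 : Tendsto (fun w : ℕ => C / √(w : ℝ)) atTop (nhds 0) :=
      (Real.tendsto_sqrt_atTop.comp (tendsto_natCast_atTop_atTop (R := ℝ))).const_div_atTop C
    have e2 : Tendsto (fun w : ℕ => δ * (w : ℝ)) atTop atTop := (tendsto_natCast_atTop_atTop (R := ℝ)).const_mul_atTop hδ0
    filter_upwards [e1.eventually_le_const (show (0 : ℝ) < ε / 8 by positivity), e2.eventually_ge_atTop 1000,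
      eventually_ge_atTop s₀, eventually_ge_atTop 200] with w a b c d
    exact ⟨a, b, c, d⟩
  have hvev : ∀ᶠ v : ℕ in atTop, 12 * Real.exp (-((v : ℝ) / 2560)) ≤ ε / 8 ∧ 1000 ≤ δ * v ∧ 4 ≤ (1 - θ) * √(v : ℝ) ∧ k₀ ≤ v ∧ 200 ≤ v := by
    have e1 : Tendsto (fun v : ℕ => 12 * Real.exp (-((v : ℝ) / 2560))) atTop (nhds 0) := by
      have h3 : Tendsto (fun v : ℕ => Real.exp (-((v : ℝ) / 2560))) atTop (nhds 0) := by
        apply Real.tendsto_exp_neg_atTop_nhds_zero.comp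
        exact tendsto_natCast_atTop_atTop.atTop_div_const (by norm_num)
      have := h3.const_mul 12
      rwa [mul_zero] at this
    have e2 : Tendsto (fun v : ℕ => δ * (v : ℝ)) atTop atTop := (tendsto_natCast_atTop_atTop (R := ℝ)).const_mul_atTop hδ0
    have e3 : Tendsto (fun v : ℕ => (1 - θ) * √(v : ℝ)) atTop atTop :=
      (Real.tendsto_sqrt_atTop.comp (tendsto_natCast_atTop_atTop (R := ℝ))).const_mul_atTop (by linarith)
    filter_upwards [e1.eventually_le_const (show (0 : ℝ) < ε / 8 by positivity), e2.eventually_ge_atTop 1000,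
      e3.eventually_ge_atTop 4, eventually_ge_atTop k₀, eventually_ge_atTop 200] with v a b c d e
    exact ⟨a, b, c, d, e⟩
  filter_upwards [(root_tend 85 (by norm_num)).eventually (h2.and hwev), (root_tend 95 (by norm_num)).eventually (hc.and hvev),
    eventually_ge_atTop 2] with N hw hv hN2 f κ q hcent a ha1 ha2
  have hN0 : (0 : ℝ) < N := by exact_mod_cast (by omega : 0 < N)
  have hN1 : (1 : ℝ) < N := by exact_mod_cast (by omega : 1 < N)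
  obtain ⟨L, hLd⟩ : ∃ L, L = logb 2 (N : ℝ) := ⟨_, rfl⟩
  rw [← hLd] at hw hv
  have hL0 : 0 < L := by rw [hLd]; exact Real.logb_pos (by norm_num) hN1
  have rw1 := root_bd 85 (by norm_num) hL0.le
  have rv1 := root_bd 95 (by norm_num) hL0.le
  obtain ⟨w, hwd⟩ : ∃ w : ℕ, w = ⌊L ^ (((85 : ℕ) : ℝ)⁻¹)⌋₊ := ⟨_, rfl⟩
  obtain ⟨v, hvd⟩ : ∃ v : ℕ, v = ⌊L ^ (((95 : ℕ) : ℝ)⁻¹)⌋₊ := ⟨_, rfl⟩
  rw [← hwd] at hw rw1
  rw [← hvd] at hv rv1
  clear hwd hvd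
  obtain ⟨h2, hw1, hw2, hw3, hw4⟩ := hw
  obtain ⟨hc, hv1, hv2, hv3, hv4, hv5⟩ := hv
  have hLw2 := rw1.2.trans (pow_two_bd 85 (by omega))
  have hLv2 := rv1.2.trans (pow_two_bd 95 (by omega))
  have hLw1 := rw1.1
  have hLv1 := rv1.1
  have hNt : 0 < (N : ℝ) ^ θ := Real.rpow_pos_of_pos hN0 _
  have ha0 : 0 < a := lt_of_lt_of_le (by positivity) ha1
  obtain ⟨A, hAd⟩ : ∃ A, A = logb 2 a := ⟨_, rfl⟩
  have hA1 : θ * L - 1 ≤ A := by
    have h := (Real.logb_le_logb (by norm_num : (1 : ℝ) < 2) (by positivity) ha0).2 ha1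
    rw [Real.logb_div hNt.ne' (by norm_num), Real.logb_rpow_eq_mul_logb_of_pos hN0, Real.logb_self_eq_one (by norm_num),
      ← hLd, ← hAd] at h
    exact h
  have hA2 : A ≤ θ * L + 1 := by
    have h := (Real.logb_le_logb (by norm_num : (1 : ℝ) < 2) ha0 (by positivity)).2 ha2
    rw [Real.logb_mul (by norm_num) hNt.ne', Real.logb_rpow_eq_mul_logb_of_pos hN0, Real.logb_self_eq_one (by norm_num),
      ← hLd, ← hAd] at h
    linarith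
  obtain ⟨s, hs52, hs88, hlen, hNa', hSL, hSL1, hs10⟩ := steps hθ1 hδ0 hδ3 hδ4 (by omega : 1 ≤ w) hw2 hL0 hLw1 hLw2 hA1 hA2
  have hNa : (2 : ℝ) ^ (2 * w ^ 80) * a ≤ N := by
    rw [← Real.logb_le_logb (by norm_num : (1 : ℝ) < 2) (by positivity) hN0, Real.logb_mul (by positivity) ha0.ne',
      Real.logb_pow, Real.logb_self_eq_one (by norm_num), ← hAd, ← hLd]
    push_cast
    linarith only [hNa']
  rw [hAd] at hlen
  have main := h2 s hs52 hs88 f hcent.iv κ hcent.kp a N ha0 hlen hNa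
  have hs1' : 1 ≤ s := le_trans (Nat.one_le_pow _ _ (by omega)) hs52
  have hth0 := th0_pos
  obtain ⟨S, hSd⟩ : ∃ S : ℝ, S = th0 * s := ⟨_, rfl⟩
  rw [← hSd] at hSL hSL1
  have hS0 : 0 ≤ S := by rw [hSd]; positivity
  obtain ⟨t1, t3, hk1, ht13, hW1, hW3, hwin⟩ := expos hδ0 hδ2 hδ3 (by omega : 1 ≤ v) hv2 hv4 hL0 hLv1 hS0 hSL1
  have hhei := fun (Y : ℝ) (hY : |Y - (L - S)| ≤ (v : ℝ) ^ 48 / 8) =>
    heights hδ0 hδ2 hδ3 (by omega : 1 ≤ v) hv2 hv3 hL0 hLv1 hLv2 hS0 hSL1 hY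
  have hLth : 0 < 1 - θ := by linarith only [hθ1]
  have hW : ∀ t : ℕ, S + th0 * t = th0 * (s + t) := by intro t; rw [hSd]; ring
  rw [hW] at hW1 hW3
  have ht_bd : ∀ t : ℕ, |th0 * (s + t) - L| ≤ δ * L → (s : ℝ) ≤ 4 / (1 - θ) * t := by
    intro t ht
    rw [← hW] at ht
    have hδL3 : δ * L ≤ (1 - θ) / 4 * L := mul_le_mul_of_nonneg_right hδ3 hL0.le
    have e1 : (1 - θ) / 4 * L = (L - θ * L) / 4 := by ring
    rw [e1] at hδL3
    have a1 : (1 - θ) / 2 * L ≤ th0 * t := by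
      have e2 : (1 - θ) / 2 * L = (L - θ * L) / 2 := by ring
      rw [e2]
      rw [abs_le] at ht hSL
      linarith only [ht.1, ht.2, hSL.1, hSL.2, hδL3]
    have a2 : th0 * s ≤ 2 * L := by
      rw [← hSd]
      have hθL : θ * L ≤ L := by
        have := mul_le_mul_of_nonneg_right hθ1.le hL0.le
        linarith only [this]
      have hδL : δ * L ≤ 1 / 2 * L := mul_le_mul_of_nonneg_right hδ2 hL0.le
      rw [abs_le] at hSL
      linarith only [hSL.1, hSL.2, hθL, hδL, hL0]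
    have a3 : th0 * s * (1 - θ) ≤ 4 * (th0 * t) := by
      calc th0 * s * (1 - θ) ≤ 2 * L * (1 - θ) := mul_le_mul_of_nonneg_right a2 hLth.le
        _ = 4 * ((1 - θ) / 2 * L) := by ring
        _ ≤ _ := mul_le_mul_of_nonneg_left a1 (by norm_num)
    rw [div_mul_eq_mul_div, le_div_iff₀ hLth]
    have a4 : th0 * (s * (1 - θ)) ≤ th0 * (4 * t) := by
      calc th0 * (s * (1 - θ)) = th0 * s * (1 - θ) := by ring
        _ ≤ 4 * (th0 * t) := a3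
        _ = _ := by ring
    exact le_of_mul_le_mul_left a4 hth0
  have hs0 : s₀ ≤ s := hw3.trans ((Nat.le_self_pow (by norm_num) w).trans hs52)
  have K1 := hK t1 hk1 s hs0 (ht_bd t1 hW1)
  have K3 := hK t3 (hk1.trans ht13) s hs0 (ht_bd t3 hW3)
  have hsq : ∀ t : ℕ, (s : ℝ) / (s + t) = S / (th0 * (s + t)) := by
    intro t
    rw [hSd, mul_div_mul_left _ _ hth0.ne']
  rw [hsq] at K1 K3
  have F1 := hφ S (th0 * (s + t1)) L hL0 hSL hW1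
  have F3 := hφ S (th0 * (s + t3)) L hL0 hSL hW3
  -- rare words
  have hbad : pb s (fun y => (v : ℝ) ^ 48 / 8 ≤ |2 * (od s y : ℝ) - s|) ≤ 2 * Real.exp (-((v : ℝ) / 2560)) := by
    refine (Pool.Agent.J4H39.pb_od hs1' (by positivity)).trans ?_
    apply mul_le_mul_of_nonneg_left _ (by norm_num)
    apply Real.exp_le_exp.2
    apply neg_le_neg
    have hs00 : (0 : ℝ) < s := by exact_mod_cast hs1'
    rw [div_le_div_iff₀ (by norm_num) (by positivity)]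
    have a1 : (s : ℝ) ≤ 20 * (v : ℝ) ^ 95 := by linarith only [hs10, hLv2]
    calc (v : ℝ) * (2 * s) ≤ v * (2 * (20 * (v : ℝ) ^ 95)) :=
          mul_le_mul_of_nonneg_left (by linarith only [a1]) (Nat.cast_nonneg v)
      _ = ((v : ℝ) ^ 48 / 8) ^ 2 * 2560 := by ring
  have hq0 := hcent.q0
  have hq1 := hcent.q1
  have hcmp := ex_cmpR (s := s) (F := fun y y' => PK f κ N s (od s y) (od s y'))
    (G := fun y y' => q * (1 - ns t1 ((od s y' : ℤ) - od s y, 0)))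
    (R := fun y y' => ε / 8 + 9 * (ns t1 ((od s y' : ℤ) - od s y, 0) - ns t3 ((od s y' : ℤ) - od s y, 0)))
    (Bad := fun y => (v : ℝ) ^ 48 / 8 ≤ |2 * (od s y : ℝ) - s|) (M := 3)
    (by norm_num) (fun y y' => by
      have := ns_anti ht13 ((od s y' : ℤ) - od s y, 0)
      linarith only [this, hε]) (by
      intro y y' hy hy'
      rw [not_le] at hy hy'
      rw [ns_sym t1, ns_sym t3]
      exact point hN0 hLd hSd hcent hc hhei hwin min_le_max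
        (by rcases min_choice (od s y) (od s y') with h | h <;> rw [h] <;> assumption)
        (by rcases max_choice (od s y) (od s y') with h | h <;> rw [h] <;> assumption)) (by
      intro y y'
      unfold PK
      have b1 := Pool.Agent.J4H26.PC.cc_bd hcent.iv hcent.iv κ (3 ^ min (od s y) (od s y') * N / 2 ^ s)
        (max (od s y) (od s y') - min (od s y) (od s y')) 0
      have b2 := ns_le_one t1 ((od s y' : ℤ) - od s y, 0)
      have b3 := ns_nonneg t1 ((od s y' : ℤ) - od s y, 0)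
      have b4 : 0 ≤ q * (1 - ns t1 ((od s y' : ℤ) - od s y, 0)) := mul_nonneg hq0 (by linarith only [b2])
      have b5 : q * (1 - ns t1 ((od s y' : ℤ) - od s y, 0)) ≤ 1 := mul_le_one₀ hq1 (by linarith only [b2]) (by linarith only [b3])
      rw [abs_le] at b1 ⊢
      constructor <;> linarith only [b1.1, b1.2, b4, b5])
  obtain ⟨V1, hV1⟩ : ∃ V1, V1 = ex s (fun y => ex s (fun y' => ns t1 ((od s y' : ℤ) - od s y, 0))) := ⟨_, rfl⟩
  obtain ⟨V3, hV3⟩ : ∃ V3, V3 = ex s (fun y => ex s (fun y' => ns t3 ((od s y' : ℤ) - od s y, 0))) := ⟨_, rfl⟩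
  have hEG : ex s (fun y => ex s (fun y' => q * (1 - ns t1 ((od s y' : ℤ) - od s y, 0)))) = q * (1 - V1) := by
    have e1 : ∀ y, ex s (fun y' => q * (1 - ns t1 ((od s y' : ℤ) - od s y, 0))) =
        q + (-q) * ex s (fun y' => ns t1 ((od s y' : ℤ) - od s y, 0)) := by
      intro y
      have : ∀ y' : ℤ, q * (1 - ns t1 ((od s y' : ℤ) - od s y, 0)) = q + (-q) * ns t1 ((od s y' : ℤ) - od s y, 0) := fun y' => by ring
      rw [ex_congr this, ex_add, ex_const, ex_mul]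
    rw [ex_congr e1, ex_add, ex_const, ex_mul, ← hV1]; ring
  have hER : ex s (fun y => ex s (fun y' => ε / 8 + 9 * (ns t1 ((od s y' : ℤ) - od s y, 0) - ns t3 ((od s y' : ℤ) - od s y, 0)))) =
      ε / 8 + 9 * (V1 - V3) := by
    have e1 : ∀ y, ex s (fun y' => ε / 8 + 9 * (ns t1 ((od s y' : ℤ) - od s y, 0) - ns t3 ((od s y' : ℤ) - od s y, 0))) =
        ε / 8 + (9 * ex s (fun y' => ns t1 ((od s y' : ℤ) - od s y, 0)) + (-9) * ex s (fun y' => ns t3 ((od s y' : ℤ) - od s y, 0))) := by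
      intro y
      have : ∀ y' : ℤ, ε / 8 + 9 * (ns t1 ((od s y' : ℤ) - od s y, 0) - ns t3 ((od s y' : ℤ) - od s y, 0)) =
        ε / 8 + (9 * ns t1 ((od s y' : ℤ) - od s y, 0) + (-9) * ns t3 ((od s y' : ℤ) - od s y, 0)) := fun y' => by ring
      rw [ex_congr this, ex_add, ex_const, ex_add, ex_mul, ex_mul]
    rw [ex_congr e1, ex_add, ex_const, ex_add, ex_mul, ex_mul, ← hV1, ← hV3]; ring
  rw [hEG, hER] at hcmp
  rw [← hV1] at K1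
  rw [← hV3] at K3
  obtain ⟨φ, hφd⟩ : ∃ φ, φ = 2 / π * arcsin √θ := ⟨_, rfl⟩
  rw [← hφd] at F1 F3 ⊢
  have g5 : |V1 - φ| ≤ ε / 40 := by
    refine (abs_sub_le _ _ _).trans ((add_le_add K1 F1).trans (le_of_eq ?_)); ring
  have g6 : |V3 - φ| ≤ ε / 40 := by
    refine (abs_sub_le _ _ _).trans ((add_le_add K3 F3).trans (le_of_eq ?_)); ring
  have g7 : |q * (1 - V1) - q * (1 - φ)| ≤ ε / 40 := by
    have : q * (1 - V1) - q * (1 - φ) = q * (φ - V1) := by ring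
    rw [this, abs_mul, abs_of_nonneg hq0, abs_sub_comm]
    exact (mul_le_of_le_one_left (abs_nonneg _) hq1).trans g5
  rw [abs_le] at main hcmp g5 g6 g7 ⊢
  constructor <;> linarith only [main.1, main.2, hcmp.1, hcmp.2, g5.1, g5.2, g6.1, g6.2, g7.1, g7.2, hbad, hv1, hw1, hε]

end Pool.Agent.J4H55.PC
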