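import Mathlib
import Pool.Agent.J4H55.PC.Ft1

set_option autoImplicit false

/-! Project PC, part A3: the transfer for the forms `n`, `3 ^ D n`: 48 stages of `j` steps. -/

namespace Pool.Agent.J4H55.PC

open Finset Filter Real
open Pool.Agent.J4H39 (T od ex pb ns rn stP stK lb GK GS Cm DV th0 Per Rel par Gd id1 id1_pos id1_neg id1_nonneg
  id1_le_one)
open Pool.Agent.J4H26.PC
open Pool.Agent.J4H95.PC
open Pool.Agent.H499R2.CO (rho rho_nonneg)

/-- the average of the correlations after `t` steps -/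
noncomputable def EE (f g : ℤ → ℝ) (κ : ℝ) (t : ℕ) (X : ℝ) (s : ℤ × ℤ) : ℝ :=
  ex t (fun y => cc f g κ (3 ^ od t y * X / 2 ^ t) ((rn stP t s y).1.toNat) 0)

theorem EE_tower (f g : ℤ → ℝ) (κ : ℝ) (a b : ℕ) (X : ℝ) (s : ℤ × ℤ) :
    EE f g κ (a + b) X s = ex a (fun y => EE f g κ b (3 ^ od a y * X / 2 ^ a) (rn stP a s y)) := by
  have h := Pool.Agent.J4H39.ex_pair a b (fun y z => cc f g κ (3 ^ od b z * (3 ^ od a y * X / 2 ^ a) / 2 ^ b)
    ((rn stP b (rn stP a s y) z).1.toNat) 0) (fun z x u => by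
      simp only
      rw [Pool.Agent.J4H39.per_od (le_refl a) x u, Pool.Agent.J4H39.per_rn stP s (le_refl a) x u]) (fun y x u => by
      simp only
      rw [Pool.Agent.J4H39.per_od (le_refl b) x u, Pool.Agent.J4H39.per_rn stP _ (le_refl b) x u])
  unfold EE
  rw [← h]
  apply Pool.Agent.J4H39.ex_congr
  intro y
  rw [Pool.Agent.J4H39.od_comp, Pool.Agent.J4H39.rn_comp]
  congr 1
  rw [pow_add, pow_add]
  field_simp

theorem EE_bd {f g : ℤ → ℝ} (hf : Iv f) (hg : Iv g) (κ : ℝ) (t : ℕ) {X : ℝ} (hX : 0 ≤ X) (s : ℤ × ℤ) :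
    |EE f g κ t X s| ≤ 2 :=
  ex_abs' (fun y => cc_bd hf hg κ (X := 3 ^ od t y * X / 2 ^ t) (by positivity) _ _)

/-- the exponent rarely drops by more than `δ` -/
theorem drop (s : ℤ × ℤ) (n l δ : ℕ) :
    pb n (fun y => (rn stP n s y).1 < s.1 - δ) ≤ 2 * pb n (fun y => ¬ Gd n (4 ^ l : ℕ) δ y) := by
  apply Pool.Agent.J4H39.pb_repr (s := s) _ (Pool.Agent.J4H39.per_nGd n (4 ^ l) δ)
  · intro y y' hrel hlt hq hq'
    push Not at hq
    have h1 := (Pool.Agent.J4H39.rel_rn hrel n).2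
    have h2 := Pool.Agent.J4H39.od_lo hq' (le_refl n)
    have h3 := Pool.Agent.J4H39.od_up hq (le_refl n)
    omega
  · intro x u
    simp only
    rw [Pool.Agent.J4H39.per_rn stP s (le_refl n) x u]

/-- the offset may be replaced by zero -/
theorem base {f g : ℤ → ℝ} (hf : Iv f) (hg : Iv g) {κ X : ℝ} (D : ℕ) (r : ℤ) {k : ℕ} (hX : 1 ≤ X)
    (hk : (2 : ℝ) ^ k ≤ X) : |cc f g κ X D r - cc f g κ X D 0| ≤ 6 * ns k (0, r) := by
  have hX0 : 0 < X := by linarith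
  unfold cc
  rw [max_eq_left hX, ← sub_div, ← sum_sub_distrib, abs_div, abs_of_pos hX0, div_le_iff₀ hX0]
  have h1 : ∀ n ∈ Finset.Ico ⌈κ * X⌉ ⌈κ * X + X⌉, |f n * g (3 ^ D * n + r) - f n * g (3 ^ D * n + 0)| ≤
      2 * id1 (rn stP k (0, r) (3 ^ D * n) ≠ (0, 0)) := by
    intro n _
    by_cases c1 : rn stP k (0, r) (3 ^ D * n) = (0, 0)
    · rw [add_zero, Iv_merge hg (Pool.Agent.J4H39.rel_zero r (3 ^ D * n)) c1, sub_self, abs_zero]
      have := id1_nonneg (rn stP k (0, r) (3 ^ D * n) ≠ (0, 0))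
      linarith
    · rw [id1_pos (P := rn stP k (0, r) (3 ^ D * n) ≠ (0, 0)) c1]
      have a1 := fg_bd hf hg n (3 ^ D * n + r)
      have a2 := fg_bd hf hg n (3 ^ D * n + 0)
      have := abs_sub (f n * g (3 ^ D * n + r)) (f n * g (3 ^ D * n + 0))
      linarith
  refine (abs_sum_le_sum_abs _ _).trans ((sum_le_sum h1).trans ?_)
  rw [← mul_sum]
  have h2 := bad_sum (κ := κ) (per_mul (Pool.Agent.J4H39.per_ns k (0, r)) D) hX hk
  rw [pb_mul (Pool.Agent.J4H39.per_ns k (0, r)) D] at h2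
  unfold ns
  linarith

theorem ex_cmp' {t : ℕ} {F G : ℤ → ℝ} {Bad : ℤ → Prop} {c M : ℝ} (hc : 0 ≤ c)
    (h1 : ∀ y, ¬ Bad y → |F y - G y| ≤ c) (h2 : ∀ y, |F y - G y| ≤ M) : |ex t F - ex t G| ≤ c + M * pb t Bad := by
  have hM : 0 ≤ M := (abs_nonneg _).trans (h2 0)
  have hsub : ex t F - ex t G = ex t (fun y => F y - G y) := by
    have h := Pool.Agent.J4H39.ex_add t F (fun y => (-1) * G y)
    rw [Pool.Agent.J4H39.ex_mul] at h
    have h2 : ex t (fun y => F y - G y) = ex t (fun y => F y + (-1) * G y) :=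
      Pool.Agent.J4H39.ex_congr (fun y => by ring)
    rw [h2, h]; ring
  have e : c + M * pb t Bad = ex t (fun y => c + M * id1 (Bad y)) := by
    rw [Pool.Agent.J4H39.ex_add, Pool.Agent.J4H39.ex_const, Pool.Agent.J4H39.ex_mul, Pool.Agent.J4H39.pb_id1]
  have key : ∀ y, |F y - G y| ≤ c + M * id1 (Bad y) := by
    intro y
    by_cases h : Bad y
    · rw [id1_pos h]; have := h2 y; linarith
    · rw [id1_neg h]; have := h1 y h; linarith
  have e2 : -(c + M * pb t Bad) = ex t (fun y => (-1) * (c + M * id1 (Bad y))) := by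
    rw [Pool.Agent.J4H39.ex_mul, ← e]; ring
  rw [hsub, abs_le]
  constructor
  · rw [e2]
    apply Pool.Agent.J4H39.ex_mono
    intro y
    have := (abs_le.mp (key y)).1
    linarith
  · rw [e]
    exact Pool.Agent.J4H39.ex_mono (fun y => (abs_le.mp (key y)).2)

/-- all the stages, for fixed parameters -/
theorem iter {f g : ℤ → ℝ} (hf : Iv f) (hg : Iv g) {κ : ℝ} {j m k o₀ δ : ℕ} {η ε : ℝ} {a b : ℕ → ℕ}
    (hη0 : 0 ≤ η) (hε0 : 0 ≤ ε) (hη : ∀ i : ℕ, ∀ u : ℤ, |u| ≤ 4 ^ (m + a i) → ns k (0, u) ≤ η)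
    (hb : b 0 ≤ m + a 0) (hmk : m + k ≤ o₀) (hkj : k ≤ j) (hj : 2 ≤ j) (h34 : (2 : ℝ) ^ ((3 / 4 : ℝ) * j) ≤ 3 ^ o₀)
    (hDV : ∀ i < 48, ∀ s : ℤ × ℤ, GS (a (i + 1)) (b (i + 1)) s → 0 ≤ s.1 → DV stK j (fun _ : Fin 1 => s) m ≤ ε)
    (hL : ∀ i < 48, ∀ s : ℤ × ℤ, GS (a (i + 1)) (b (i + 1)) s →
      pb j (fun w => ¬ (o₀ ≤ od j w ∧ GS (a i) (b i) (rn stP j s w))) ≤ ε)
    (hdr : ∀ s : ℤ × ℤ, pb j (fun y => (rn stP j s y).1 < s.1 - δ) ≤ ε) :
    ∀ i ≤ 48, ∀ (s : ℤ × ℤ) (X : ℝ), GS (a i) (b i) s → ((i * δ : ℕ) : ℤ) ≤ s.1 →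
      (2 : ℝ) ^ ((7 + (i : ℝ) / 4) * j) ≤ X → |cc f g κ X s.1.toNat s.2 - EE f g κ (i * j) X s| ≤
        i * (8 * (ε + (2 * η + 26 / 2 ^ j) + 2 * ε) + 24 / 2 ^ j + 8 * ε) + 6 * η := by
  have h2j : (0 : ℝ) < 2 ^ j := by positivity
  have hj0 : (0 : ℝ) < j := by exact_mod_cast (by omega : 0 < j)
  intro i
  induction i with
  | zero =>
    intro _ s X hs hs1 hX
    have hX7 : (2 : ℝ) ^ k ≤ X := by
      refine le_trans ?_ hX
      rw [← Real.rpow_natCast 2 k]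
      apply Real.rpow_le_rpow_of_exponent_le (by norm_num)
      have : (k : ℝ) ≤ j := by exact_mod_cast hkj
      push_cast
      nlinarith
    have hX1 : 1 ≤ X := le_trans (one_le_pow₀ (by norm_num)) hX7
    have e1 : EE f g κ (0 * j) X s = cc f g κ X s.1.toNat 0 := by
      unfold EE
      rw [zero_mul, Pool.Agent.J4H39.ex_zero]
      simp [rn, od]
    rw [e1]
    refine (base hf hg s.1.toNat s.2 hX1 hX7).trans ?_
    have := hη 0 s.2 (hs.2.trans (pow_le_pow_right₀ (by norm_num) hb))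
    push_cast
    linarith
  | succ i ih =>
    intro hi s X hs hs1 hX
    have hi' : i < 48 := by omega
    have hs0 : 0 ≤ s.1 := le_trans (by positivity) hs1
    obtain ⟨D, hD⟩ := Int.eq_ofNat_of_zero_le hs0
    have hsD : s = ((D : ℤ), s.2) := Prod.ext hD rfl
    have htn : s.1.toNat = D := by rw [hD]; rfl
    have hX7 : (2 : ℝ) ^ (7 * j) ≤ X := by
      refine le_trans ?_ hX
      rw [← Real.rpow_natCast 2 (7 * j)]
      apply Real.rpow_le_rpow_of_exponent_le (by norm_num)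
      push_cast
      have : (0 : ℝ) ≤ ((i : ℝ) + 1) / 4 * j := by positivity
      nlinarith
    have hX0 : 0 < X := lt_of_lt_of_le (by positivity) hX7
    have h4X : 4 * (2 : ℝ) ^ j ≤ X := by
      refine le_trans ?_ hX7
      have e1 : (2 : ℝ) ^ (7 * j) = 2 ^ (6 * j) * 2 ^ j := by rw [← pow_add]; congr 1; ring
      have e2 : (4 : ℝ) ≤ 2 ^ (6 * j) := by
        calc (4 : ℝ) = 2 ^ 2 := by norm_num
          _ ≤ 2 ^ (6 * j) := pow_le_pow_right₀ (by norm_num) (by omega)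
      rw [e1]
      exact mul_le_mul_of_nonneg_right e2 h2j.le
    have hrat : (2 : ℝ) ^ j / X ≤ 1 / 2 ^ j := by
      rw [div_le_div_iff₀ hX0 h2j, one_mul, ← pow_add]
      refine le_trans ?_ hX7
      exact pow_le_pow_right₀ (by norm_num) (by omega)
    have st := one_stage hf hg (κ := κ) (X := X) (D := D) (r := s.2) (j := j) (m := m) (k := k) (a := a i) (b := b i)
      (o₀ := o₀) hη0 (hη i) hmk h4X
    rw [← hsD] at st
    have hbad : pb j (fun w => ¬ (o₀ ≤ od j w ∧ GS (a i) (b i) (rn stP j s w) ∧ ((i * δ : ℕ) : ℤ) ≤ (rn stP j s w).1)) ≤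
        2 * ε := by
      have h1 : pb j (fun w => ¬ (o₀ ≤ od j w ∧ GS (a i) (b i) (rn stP j s w) ∧ ((i * δ : ℕ) : ℤ) ≤ (rn stP j s w).1)) ≤
          pb j (fun w => ¬ (o₀ ≤ od j w ∧ GS (a i) (b i) (rn stP j s w))) + pb j (fun y => (rn stP j s y).1 < s.1 - δ) := by
        refine le_trans (Pool.Agent.J4H39.pb_mono ?_) (Pool.Agent.J4H39.pb_or _ _ _)
        intro w hw
        by_cases hc : o₀ ≤ od j w ∧ GS (a i) (b i) (rn stP j s w)
        · right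
          by_contra hcon
          push Not at hcon
          apply hw
          refine ⟨hc.1, hc.2, ?_⟩
          push_cast at hs1 ⊢
          linarith
        · left; exact hc
      have h2 := hL i hi' s hs
      have h3 := hdr s
      linarith
    have hbad2 : pb j (fun w => ¬ (o₀ ≤ od j w ∧ GS (a i) (b i) (rn stP j s w) ∧ 0 ≤ (rn stP j s w).1)) ≤ 2 * ε := by
      refine le_trans (Pool.Agent.J4H39.pb_mono ?_) hbad
      intro w hw hc
      exact hw ⟨hc.1, hc.2.1, le_trans (by positivity) hc.2.2⟩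
    have hd := hDV i hi' s hs hs0
    have st' : |cc f g κ X D s.2 - ex j (fun y => cc f g κ (3 ^ od j y * X / 2 ^ j) ((rn stP j s y).1.toNat)
        (rn stP j s y).2)| ≤ 8 * (ε + (2 * η + 26 / 2 ^ j) + 2 * ε) + 24 / 2 ^ j := by
      refine st.trans ?_
      have e1 : 26 * (2 : ℝ) ^ j / X ≤ 26 / 2 ^ j := by
        calc 26 * (2 : ℝ) ^ j / X = 26 * (2 ^ j / X) := by ring
          _ ≤ 26 * (1 / 2 ^ j) := by linarith
          _ = 26 / 2 ^ j := by ring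
      have e2 : 24 * (2 : ℝ) ^ j / X ≤ 24 / 2 ^ j := by
        calc 24 * (2 : ℝ) ^ j / X = 24 * (2 ^ j / X) := by ring
          _ ≤ 24 * (1 / 2 ^ j) := by linarith
          _ = 24 / 2 ^ j := by ring
      linarith
    have tw : EE f g κ ((i + 1) * j) X s = ex j (fun y => EE f g κ (i * j) (3 ^ od j y * X / 2 ^ j) (rn stP j s y)) := by
      rw [← EE_tower]
      congr 1
      ring
    have hErr : 0 ≤ (i : ℝ) * (8 * (ε + (2 * η + 26 / 2 ^ j) + 2 * ε) + 24 / 2 ^ j + 8 * ε) + 6 * η := by positivity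
    have cmp := ex_cmp' (t := j) (F := fun y => cc f g κ (3 ^ od j y * X / 2 ^ j) ((rn stP j s y).1.toNat)
        (rn stP j s y).2) (G := fun y => EE f g κ (i * j) (3 ^ od j y * X / 2 ^ j) (rn stP j s y))
      (Bad := fun w => ¬ (o₀ ≤ od j w ∧ GS (a i) (b i) (rn stP j s w) ∧ ((i * δ : ℕ) : ℤ) ≤ (rn stP j s w).1))
      (M := 4) hErr (fun y hy => by
        rw [not_not] at hy
        apply ih (by omega) _ _ hy.2.1 hy.2.2
        rw [le_div_iff₀ h2j]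
        have e1 : (2 : ℝ) ^ ((7 + (i : ℝ) / 4) * j) * 2 ^ j = 2 ^ ((3 / 4 : ℝ) * j) * 2 ^ ((7 + ((i + 1 : ℕ) : ℝ) / 4) * j) := by
          rw [← Real.rpow_natCast 2 j, ← Real.rpow_add (by norm_num), ← Real.rpow_add (by norm_num)]
          congr 1
          push_cast
          ring
        rw [e1]
        apply mul_le_mul _ hX (by positivity) (by positivity)
        refine h34.trans ?_
        exact pow_le_pow_right₀ (by norm_num) hy.1) (fun y => by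
        have hXy : (0 : ℝ) ≤ 3 ^ od j y * X / 2 ^ j := by positivity
        have a1 := cc_bd hf hg κ hXy ((rn stP j s y).1.toNat) (rn stP j s y).2
        have a2 := EE_bd hf hg κ (i * j) hXy (rn stP j s y)
        have := abs_sub (cc f g κ (3 ^ od j y * X / 2 ^ j) ((rn stP j s y).1.toNat) (rn stP j s y).2)
          (EE f g κ (i * j) (3 ^ od j y * X / 2 ^ j) (rn stP j s y))
        linarith)
    rw [tw, htn]
    refine (abs_sub_le _ _ _).trans ((add_le_add st' cmp).trans ?_)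
    rw [Nat.cast_add, Nat.cast_one]
    linarith [hbad]

/-! The rates. -/

theorem rho_bd {w k : ℕ} (hw : 1 ≤ w) (h1 : w ^ 80 ≤ 16 * k) (h2 : k ≤ w ^ 80) : rho k ≤ 36 / (w : ℝ) ^ 39 := by
  have hw1 : (1 : ℝ) ≤ w := by exact_mod_cast hw
  have hw0 : (0 : ℝ) < w := by linarith
  unfold rho
  have h80 : (1 : ℝ) ≤ (w : ℝ) ^ 80 := one_le_pow₀ hw1
  have h1r : (w : ℝ) ^ 80 ≤ 16 * k := by exact_mod_cast h1
  have h2r : (k : ℝ) ≤ (w : ℝ) ^ 80 := by exact_mod_cast h2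
  have hk0 : (0 : ℝ) < k := by nlinarith
  have h3 : Real.log ((k : ℝ) + 1) ≤ 81 * (w : ℝ) ^ 2 := by
    calc Real.log ((k : ℝ) + 1) ≤ Real.log (2 * (w : ℝ) ^ 80) := Real.log_le_log (by positivity) (by linarith)
      _ = Real.log 2 + 80 * Real.log w := by rw [Real.log_mul (by norm_num) (by positivity), Real.log_pow]; push_cast; ring
      _ ≤ 1 + 80 * w := by
        have a1 := Real.log_two_lt_d9
        have a2 := Real.log_le_sub_one_of_pos hw0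
        linarith
      _ ≤ 81 * (w : ℝ) ^ 2 := by nlinarith
  rw [Real.sqrt_le_left (by positivity), div_pow, div_le_div_iff₀ hk0 (by positivity)]
  calc Real.log ((k : ℝ) + 1) * ((w : ℝ) ^ 39) ^ 2 ≤ (81 * (w : ℝ) ^ 2) * ((w : ℝ) ^ 39) ^ 2 := by gcongr
    _ = 81 * (w : ℝ) ^ 80 := by ring
    _ ≤ 36 ^ 2 * k := by linarith

theorem ns_bd : ∃ C : ℝ, 0 < C ∧ ∀ w k u : ℕ, 1 ≤ w → w ^ 80 ≤ 16 * k → k ≤ w ^ 80 → u ≤ 2 * w ^ 76 →
    ∀ r : ℤ, |r| ≤ 4 ^ u → ns k (0, r) ≤ C / w := by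
  obtain ⟨C, hC, hrate⟩ := Pool.Agent.J4H39.ns_rate
  refine ⟨72 * C, by positivity, fun w k u hw h1 h2 hu r hr => ?_⟩
  have hw1 : (1 : ℝ) ≤ w := by exact_mod_cast hw
  have hw0 : (0 : ℝ) < w := by linarith
  have hk1 : 1 ≤ k := by
    have : 1 ≤ w ^ 80 := Nat.one_le_pow _ _ hw
    omega
  refine (hrate k hk1 0 u r (by exact_mod_cast hr)).trans ?_
  have h3 := rho_bd hw h1 h2
  have h4 : √ (1 + (((0 : ℤ) : ℝ)) ^ 2 + (u : ℝ)) ≤ 2 * (w : ℝ) ^ 38 := by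
    rw [Real.sqrt_le_left (by positivity)]
    have a1 : (u : ℝ) ≤ 2 * (w : ℝ) ^ 76 := by exact_mod_cast hu
    have a2 : (1 : ℝ) ≤ (w : ℝ) ^ 76 := one_le_pow₀ hw1
    have a3 : (2 * (w : ℝ) ^ 38) ^ 2 = 4 * (w : ℝ) ^ 76 := by ring
    rw [a3]
    push_cast
    linarith
  have h5 := rho_nonneg k
  calc C * √ (1 + (((0 : ℤ) : ℝ)) ^ 2 + (u : ℝ)) * rho k ≤ C * (2 * (w : ℝ) ^ 38) * (36 / (w : ℝ) ^ 39) := by
        gcongr
    _ = 72 * C / w := by field_simp; norm_num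

theorem drop_bd : ∀ᶠ w : ℕ in atTop, ∀ j, w ^ 80 ≤ j → j ≤ 2 * w ^ 80 → ∀ s : ℤ × ℤ,
    pb j (fun y => (rn stP j s y).1 < s.1 - (w ^ 41 : ℕ)) ≤ 1 / w := by
  have h1 := Real.tendsto_pow_mul_exp_neg_atTop_nhds_zero 161
  have h2 := h1.comp (tendsto_natCast_atTop_atTop (R := ℝ))
  filter_upwards [h2.eventually (ge_mem_nhds (show (0 : ℝ) < 1 / 15 by norm_num)), eventually_ge_atTop 4] with w h3 h4
  intro j hj1 hj2 s
  simp only [Function.comp] at h3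
  have hw4 : (4 : ℝ) ≤ w := by exact_mod_cast h4
  have hw0 : (0 : ℝ) < w := by linarith
  have hw1 : (1 : ℝ) ≤ w := by linarith
  have hw80 : (1 : ℝ) ≤ (w : ℝ) ^ 80 := one_le_pow₀ hw1
  have hj : 1 ≤ j := le_trans (Nat.one_le_pow _ _ (by omega)) hj1
  have hj0 : (0 : ℝ) < j := by exact_mod_cast hj
  have hj2r : (j : ℝ) ≤ 2 * (w : ℝ) ^ 80 := by exact_mod_cast hj2
  refine (drop s j w (w ^ 41)).trans ?_
  have h5 := Pool.Agent.J4H39.pb_Gd (t := j) (L := 4 ^ w) (Nat.one_le_pow _ _ (by norm_num)) hj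
    (δ := ((w ^ 41 : ℕ) : ℝ)) (by positivity)
  have h6 : Real.exp (-(((w ^ 41 : ℕ) : ℝ) ^ 2 / (2 * j))) ≤ Real.exp (-w) := by
    apply Real.exp_le_exp.2
    rw [neg_le_neg_iff, le_div_iff₀ (by positivity)]
    push_cast
    calc (w : ℝ) * (2 * j) ≤ w * (2 * (2 * (w : ℝ) ^ 80)) := by gcongr
      _ = 4 * (w : ℝ) ^ 81 := by ring
      _ ≤ w * (w : ℝ) ^ 81 := by gcongr
      _ = ((w : ℝ) ^ 41) ^ 2 := by ring
  have h7 : (1 : ℝ) / ((4 ^ w : ℕ) : ℝ) ≤ Real.exp (-w) := by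
    rw [Real.exp_neg, ← one_div]
    apply one_div_le_one_div_of_le (Real.exp_pos _)
    push_cast
    have : Real.exp (w : ℝ) = Real.exp 1 ^ w := by rw [← Real.exp_nat_mul, mul_one]
    rw [this]
    apply pow_le_pow_left₀ (Real.exp_pos _).le
    have := Real.exp_one_lt_d9
    linarith
  have h8 : (j : ℝ) / (4 * ((4 ^ w : ℕ) : ℝ)) ≤ (w : ℝ) ^ 80 * Real.exp (-w) := by
    have : (j : ℝ) / (4 * ((4 ^ w : ℕ) : ℝ)) = j / 4 * (1 / ((4 ^ w : ℕ) : ℝ)) := by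
      rw [div_mul_div_comm, mul_one]
    rw [this]
    apply mul_le_mul _ h7 (by positivity) (by positivity)
    linarith
  have h9 : pb j (fun x => ¬ Gd j (4 ^ w) ((w ^ 41 : ℕ) : ℝ) x) ≤ 3 * (w : ℝ) ^ 80 * ((w : ℝ) ^ 80 * Real.exp (-w) +
      2 * Real.exp (-w)) := by
    refine h5.trans ?_
    apply mul_le_mul (by linarith) (by linarith) (by positivity) (by positivity)
  have h10 : 2 * (3 * (w : ℝ) ^ 80 * ((w : ℝ) ^ 80 * Real.exp (-w) + 2 * Real.exp (-w))) ≤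
      15 * ((w : ℝ) ^ 161 * Real.exp (-w)) / w := by
    have e1 : 15 * ((w : ℝ) ^ 161 * Real.exp (-w)) / w = 15 * (w : ℝ) ^ 160 * Real.exp (-w) := by
      field_simp
    rw [e1]
    have e2 : 2 * (3 * (w : ℝ) ^ 80 * ((w : ℝ) ^ 80 * Real.exp (-w) + 2 * Real.exp (-w))) =
        (6 * (w : ℝ) ^ 160 + 12 * (w : ℝ) ^ 80) * Real.exp (-w) := by ring
    rw [e2]
    apply mul_le_mul_of_nonneg_right _ (Real.exp_pos _).le
    have e3 : (w : ℝ) ^ 160 = (w : ℝ) ^ 80 * (w : ℝ) ^ 80 := by ring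
    have e4 : (4 : ℝ) ≤ (w : ℝ) ^ 80 := hw4.trans (le_self_pow₀ hw1 (by norm_num))
    nlinarith
  have h11 : 15 * ((w : ℝ) ^ 161 * Real.exp (-w)) / w ≤ 1 / w := by
    apply div_le_div_of_nonneg_right _ hw0.le
    linarith
  calc 2 * pb j (fun x => ¬ Gd j (4 ^ w) ((w ^ 41 : ℕ) : ℝ) x) ≤ 2 * (3 * (w : ℝ) ^ 80 * ((w : ℝ) ^ 80 * Real.exp (-w) +
      2 * Real.exp (-w))) := by linarith
    _ ≤ 1 / w := h10.trans h11

/-- the constants of the stages -/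
def cf : ℕ → ℕ
  | 0 => 1
  | n + 1 => 2 * cf n + 4

theorem cf_mono {a b : ℕ} (h : a ≤ b) : cf a ≤ cf b := by
  induction h with
  | refl => exact le_rfl
  | @step m _ ih =>
    have : cf (m + 1) = 2 * cf m + 4 := rfl
    rw [this]; omega

theorem t_FT (hD : S_DVR) (hLb : S_LABR) : S_FT := by
  obtain ⟨C, hC, hns⟩ := ns_bd
  refine ⟨48 * (8 * (1 + (2 * C + 26) + 2) + 24 + 8) + 6 * C, by positivity, ?_⟩
  have hT : Tendsto (fun w : ℕ => w ^ 4) atTop atTop := tendsto_pow_atTop (by norm_num)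
  have hDV : ∀ᶠ w : ℕ in atTop, ∀ n ∈ range 48, ∀ j, (w ^ 4) ^ 20 ≤ j → j ≤ 2 * (w ^ 4) ^ 20 →
      ∀ s : Fin 1 → ℤ × ℤ, GK (cf n * (w ^ 4) ^ 12) (cf n * (w ^ 4) ^ 14) s → Cm s →
        DV stK j s ((w ^ 4) ^ 19) ≤ 1 / ((w ^ 4 : ℕ) : ℝ) ^ 1 := by
    rw [Filter.eventually_all_finset]
    intro n _
    exact hT.eventually (hD 1 (cf n) 1)
  have hLB : ∀ᶠ w : ℕ in atTop, ∀ n ∈ range 48, ∀ j, (w ^ 4) ^ 20 ≤ j → j ≤ 2 * (w ^ 4) ^ 20 →
      ∀ s : Fin 1 → ℤ × ℤ, GK (cf n * (w ^ 4) ^ 12) (cf n * (w ^ 4) ^ 14) s → pb j (fun y => ¬ ((j - (w ^ 4) ^ 11) / 2 ≤ od j y ∧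
    GK ((2 * cf n + 4) * (w ^ 4) ^ 12) ((2 * cf n + 4) * (w ^ 4) ^ 14) (rn stK j s y))) ≤ 1 / ((w ^ 4 : ℕ) : ℝ) ^ 1 := by
    rw [Filter.eventually_all_finset]
    intro n _
    exact hT.eventually (hLb 1 (cf n) 1)
  filter_upwards [hDV, hLB, drop_bd, eventually_ge_atTop (cf 48), eventually_ge_atTop 100] with w h1 h2 h3 h4 h5
  intro j hj1 hj2 f g hf hg κ hκ X hX D hD1 hD2
  have e20 : (w ^ 4) ^ 20 = w ^ 80 := by rw [← pow_mul]
  have e11 : (w ^ 4) ^ 11 = w ^ 44 := by rw [← pow_mul]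
  have e19 : (w ^ 4) ^ 19 = w ^ 76 := by rw [← pow_mul]
  have e12 : (w ^ 4) ^ 12 = w ^ 48 := by rw [← pow_mul]
  have e14 : (w ^ 4) ^ 14 = w ^ 56 := by rw [← pow_mul]
  rw [e20] at h1 h2
  rw [e11] at h2
  rw [e19] at h1
  rw [e12, e14] at h1 h2
  have hw1 : (1 : ℝ) ≤ w := by exact_mod_cast (by omega : 1 ≤ w)
  have hw0 : (0 : ℝ) < w := by linarith
  have hε : (1 : ℝ) / ((w ^ 4 : ℕ) : ℝ) ^ 1 ≤ 1 / w := by
    rw [pow_one]
    push_cast
    apply one_div_le_one_div_of_le hw0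
    exact le_self_pow₀ hw1 (by norm_num)
  have p80 : w * w ^ 79 = w ^ 80 := by ring
  have p79 : w ^ 76 ≤ w ^ 79 := Nat.pow_le_pow_right (by omega) (by norm_num)
  have p79' : w ^ 44 ≤ w ^ 79 := Nat.pow_le_pow_right (by omega) (by norm_num)
  have p79'' : 1 ≤ w ^ 79 := Nat.one_le_pow _ _ (by omega)
  have p100 : 100 * w ^ 79 ≤ w ^ 80 := by rw [← p80]; exact Nat.mul_le_mul_right _ h5
  obtain ⟨k, hk⟩ : ∃ k, k = w ^ 80 / 8 := ⟨_, rfl⟩
  obtain ⟨o₀, ho₀⟩ : ∃ o₀, o₀ = (j - w ^ 44) / 2 := ⟨_, rfl⟩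
  have hk16 : w ^ 80 ≤ 16 * k := by omega
  have hk80 : k ≤ w ^ 80 := by omega
  have hcf : ∀ n ≤ 48, cf n * w ^ 48 ≤ w ^ 76 := by
    intro n hn
    calc cf n * w ^ 48 ≤ w * w ^ 48 := Nat.mul_le_mul_right _ ((cf_mono hn).trans h4)
      _ = w ^ 49 := by ring
      _ ≤ w ^ 76 := Nat.pow_le_pow_right (by omega) (by norm_num)
  have hcf2 : ∀ n ≤ 48, cf n * w ^ 56 ≤ w ^ 76 := by
    intro n hn
    calc cf n * w ^ 56 ≤ w * w ^ 56 := Nat.mul_le_mul_right _ ((cf_mono hn).trans h4)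
      _ = w ^ 57 := by ring
      _ ≤ w ^ 76 := Nat.pow_le_pow_right (by omega) (by norm_num)
  have hj80 : (0 : ℝ) < j := by
    have : 1 ≤ j := by omega
    exact_mod_cast this
  have h34 : (2 : ℝ) ^ ((3 / 4 : ℝ) * j) ≤ 3 ^ o₀ := by
    have a1 : 49 * j ≤ 100 * o₀ := by omega
    have a2 : ((2 : ℝ) ^ ((3 / 4 : ℝ) * j)) ^ 100 = 2 ^ (75 * j) := by
      rw [← Real.rpow_natCast ((2 : ℝ) ^ ((3 / 4 : ℝ) * j)) 100, ← Real.rpow_mul (by norm_num),
        ← Real.rpow_natCast 2 (75 * j)]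
      congr 1
      push_cast
      ring
    have a3 : (2 : ℝ) ^ (75 * j) ≤ (3 ^ o₀) ^ 100 := by
      calc (2 : ℝ) ^ (75 * j) = (2 ^ 75) ^ j := by rw [pow_mul]
        _ ≤ (3 ^ 49) ^ j := pow_le_pow_left₀ (by norm_num) (by norm_num) j
        _ = 3 ^ (49 * j) := by rw [pow_mul]
        _ ≤ 3 ^ (100 * o₀) := pow_le_pow_right₀ (by norm_num) a1
        _ = (3 ^ o₀) ^ 100 := by rw [← pow_mul]; congr 1; ring
    rw [← a2] at a3
    exact (pow_le_pow_iff_left₀ (by positivity) (by positivity) (by norm_num)).1 a3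
  have hη : ∀ i : ℕ, ∀ u : ℤ, |u| ≤ 4 ^ (w ^ 76 + cf (48 - i) * w ^ 48) → ns k (0, u) ≤ C / w := by
    intro i u hu
    refine hns w k _ (by omega) hk16 hk80 ?_ u hu
    have := hcf (48 - i) (by omega)
    omega
  have hGK : ∀ (a b : ℕ) (s : ℤ × ℤ), GK a b (fun _ : Fin 1 => s) ↔ GS a b s := fun a b s =>
    ⟨fun h => h 0, fun h _ => h⟩
  have main := iter hf hg (κ := κ) (j := j) (m := w ^ 76) (k := k) (o₀ := o₀) (δ := w ^ 41) (η := C / w) (ε := 1 / w)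
    (a := fun i => cf (48 - i) * w ^ 48) (b := fun i => cf (48 - i) * w ^ 56) (by positivity) (by positivity) hη
    (by have := hcf2 (48 - 0) (by omega); omega) (by omega) (by omega) (by omega) h34 (by
      intro i hi s hs hs0
      have := h1 (48 - (i + 1)) (by rw [mem_range]; omega) j hj1 hj2 (fun _ : Fin 1 => s) ((hGK _ _ s).2 hs)
        (Pool.Agent.J4H39.Cm_nonneg (fun _ => hs0))
      exact this.trans hε) (by
      intro i hi s hs
      have := h2 (48 - (i + 1)) (by rw [mem_range]; omega) j hj1 hj2 (fun _ : Fin 1 => s) ((hGK _ _ s).2 hs)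
      have e : cf (48 - i) = 2 * cf (48 - (i + 1)) + 4 := by
        have : 48 - i = (48 - (i + 1)) + 1 := by omega
        rw [this]; rfl
      refine le_trans ?_ (this.trans hε)
      apply Pool.Agent.J4H39.pb_mono
      intro y hy hc
      apply hy
      refine ⟨by rw [ho₀]; exact hc.1, ?_⟩
      have h6 := hc.2 0
      rw [Pool.Agent.J4H39.rn_stK_apply] at h6
      rw [e]
      exact h6) (fun s => h3 j hj1 hj2 s)
  have hDr : ((48 * w ^ 41 : ℕ) : ℤ) ≤ ((D : ℤ), (0 : ℤ)).1 := by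
    simp only
    have : 48 * w ^ 41 ≤ D := by
      calc 48 * w ^ 41 ≤ w * w ^ 41 := Nat.mul_le_mul_right _ (by omega)
        _ = w ^ 42 := by ring
        _ ≤ D := hD1
    exact_mod_cast this
  have fin := main 48 le_rfl ((D : ℤ), 0) X ⟨by
      simp only [Nat.sub_self, cf, one_mul, Nat.abs_cast]
      exact_mod_cast hD2, by simp⟩ hDr (by
      refine le_trans (le_of_eq ?_) hX
      rw [← Real.rpow_natCast 2 (19 * j)]
      congr 1
      push_cast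
      ring)
  have e1 : EE f g κ (48 * j) X ((D : ℤ), 0) = ex (48 * j) (fun y => cc f g κ (3 ^ od (48 * j) y * X / 2 ^ (48 * j))
    ((rn stP (48 * j) ((D : ℤ), 0) y).1.toNat) 0) := rfl
  rw [← e1]
  simp only [Int.toNat_natCast] at fin
  refine fin.trans ?_
  have h2j : 1 / (2 : ℝ) ^ j ≤ 1 / w := by
    apply one_div_le_one_div_of_le hw0
    have a1 : w ≤ j := le_trans (Nat.le_self_pow (by norm_num) w) hj1
    have a2 : j < 2 ^ j := Nat.lt_two_pow_self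
    exact_mod_cast (a1.trans a2.le)
  have e2 : 26 / (2 : ℝ) ^ j = 26 * (1 / 2 ^ j) := by ring
  have e3 : 24 / (2 : ℝ) ^ j = 24 * (1 / 2 ^ j) := by ring
  have e4 : (48 * (8 * (1 + (2 * C + 26) + 2) + 24 + 8) + 6 * C) / w =
      48 * (8 * (1 / w + (2 * (C / w) + 26 * (1 / w)) + 2 * (1 / w)) + 24 * (1 / w) + 8 * (1 / w)) + 6 * (C / w) := by
    field_simp
  rw [e2, e3, e4]
  push_cast
  linarith

end Pool.Agent.J4H55.PC
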